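import Mathlib
import Pool.Agent.CMTP.Final

set_option autoImplicit false

/-!
# Almost all CM extensions of totally real fields: definitions and targets
-/

namespace Pool.Agent.CMX

open NumberField Finset Module
open Pool.Agent.CMT (QBar IsCMType cc)
open scoped BigOperators

/-! ## Definitions -/

/-- the eigenlines in the first cohomology of the product of the `n l s`-th powers of the abelian
varieties with CM type `(K l, Φ l s)`, `s < m l` -/
abbrev Idx {Λ : Type} (K : Λ → Type) [∀ l, Field (K l)] {m : Λ → ℕ}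
    (n : ∀ l, Fin (m l) → ℕ) : Type :=
  Σ l, Σ s : Fin (m l), (K l →+* QBar) × Fin (n l s)

/-- the automorphism `τ` carries the embedding of the eigenline into the CM type -/
def InType {Λ : Type} {K : Λ → Type} [∀ l, Field (K l)] {m : Λ → ℕ}
    (Φ : ∀ l, Fin (m l) → Finset (K l →+* QBar)) {n : ∀ l, Fin (m l) → ℕ} (τ : QBar ≃+* QBar) :
    Idx K n → Prop
  | ⟨l, s, φ, _⟩ => (τ : QBar →+* QBar).comp φ ∈ Φ l s

/-- Tate weights of codimension `i` on the product `∏ A_{l,s} ^ n_{l,s}`, where `A_{l,s}` has CM type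
`(K l, Φ l s)`: sets of `2 i` eigenlines such that every automorphism of the algebraic numbers
carries exactly `i` of them into the CM types. -/
def TateWeight {Λ : Type} {K : Λ → Type} [∀ l, Field (K l)] {m : Λ → ℕ}
    (Φ : ∀ l, Fin (m l) → Finset (K l →+* QBar)) {n : ∀ l, Fin (m l) → ℕ} (i : ℕ)
    (Δ : Finset (Idx K n)) : Prop :=
  Δ.card = 2 * i ∧ ∀ τ : QBar ≃+* QBar, {p : Idx K n | p ∈ Δ ∧ InType Φ τ p}.ncard = i

/-- disjoint unions of Tate weights of codimension one -/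
def Divisorial {Λ : Type} {K : Λ → Type} [∀ l, Field (K l)] {m : Λ → ℕ}
    (Φ : ∀ l, Fin (m l) → Finset (K l →+* QBar)) {n : ∀ l, Fin (m l) → ℕ}
    (Δ : Finset (Idx K n)) : Prop :=
  ∃ D : Finset (Finset (Idx K n)),
    (D : Set (Finset (Idx K n))).PairwiseDisjoint id ∧
    (∀ p, p ∈ Δ ↔ ∃ B ∈ D, p ∈ B) ∧ ∀ B ∈ D, TateWeight Φ 1 B

/-- all Tate classes on all products of powers are generated by divisor classes -/
def TateByDivisors {Λ : Type} {K : Λ → Type} [∀ l, Field (K l)] {m : Λ → ℕ}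
    (Φ : ∀ l, Fin (m l) → Finset (K l →+* QBar)) : Prop :=
  ∀ (n : ∀ l, Fin (m l) → ℕ) (i : ℕ) (Δ : Finset (Idx K n)), TateWeight Φ i Δ → Divisorial Φ Δ

open Classical in
/-- the sign vector of a CM type -/
noncomputable def sgn {K : Type} [Field K] (Φ : Finset (K →+* QBar)) (φ : K →+* QBar) : ℚ :=
  if φ ∈ Φ then 1 else -1

/-- the subfield of the algebraic numbers generated by all conjugates of the fields `F l` -/
noncomputable def conjField {Λ : Type} (F : Λ → Type) [∀ l, Field (F l)] : Subfield QBar :=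
  ⨆ l, ⨆ σ : F l →+* QBar, σ.fieldRange

/-- no non-empty product of conjugates of the `-a l` is a square in the field generated by the
conjugates of the fields `F l` -/
def Indep {Λ : Type} {F : Λ → Type} [∀ l, Field (F l)] (a : ∀ l, F l) : Prop :=
  ∀ S : Finset (Σ l, F l →+* QBar), S.Nonempty → ∀ β ∈ conjField F,
    ∏ s ∈ S, (- s.2 (a s.1)) ≠ β ^ 2

/-- every single pair of conjugate embeddings can be interchanged by an automorphism which fixes
all other embeddings of all the fields `K l` -/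
def HasFlips {Λ : Type} (K : Λ → Type) [∀ l, Field (K l)] [∀ l, NumberField (K l)]
    [∀ l, IsCMField (K l)] : Prop :=
  ∀ (l : Λ) (φ₀ : K l →+* QBar), ∃ τ : QBar ≃+* QBar,
    (τ : QBar →+* QBar).comp φ₀ = cc φ₀ ∧
    (∀ φ : K l →+* QBar, φ ≠ φ₀ → φ ≠ cc φ₀ → (τ : QBar →+* QBar).comp φ = φ) ∧
    ∀ l' : Λ, l' ≠ l → ∀ φ : K l' →+* QBar, (τ : QBar →+* QBar).comp φ = φ

/-! ## Targets -/

/-- SPL: infinitely many primes have a prime of degree one in a number field. -/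
def T_SPL : Prop := ∀ (L : Type) [Field L] [NumberField L] (N : ℕ),
  ∃ p : ℕ, p.Prime ∧ N < p ∧ Nonempty (𝓞 L →+* ZMod p)

/-- DIST: distinct embeddings of `F` into `L` remain distinct modulo large primes. -/
def T_DIST : Prop := ∀ (F L : Type) [Field F] [NumberField F] [Field L] [NumberField L]
  (σ τ : F →+* L), σ ≠ τ → ∃ N : ℕ, ∀ p : ℕ, p.Prime → N < p → ∀ ρ : 𝓞 L →+* ZMod p,
    ρ.comp (RingOfIntegers.mapRingHom σ) ≠ ρ.comp (RingOfIntegers.mapRingHom τ)

/-- EQUI: as many distinct homomorphisms to `ZMod p` as the rank give a bijection. -/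
def T_EQUI : Prop := ∀ (F ι J : Type) [Field F] [NumberField F] [Fintype ι] [Fintype J]
  (b : Basis ι ℤ (𝓞 F)) (p : ℕ) [Fact p.Prime] (r : J → (𝓞 F →+* ZMod p)),
  Function.Injective r → Fintype.card J = Fintype.card ι →
  Function.Bijective (fun (x : ι → ZMod p) (j : J) => ∑ i, x i * r j (b i))

/-- FP: a positive proportion of the vectors modulo `p` has a product that is not a square. -/
def T_FP : Prop := ∀ (J : Type) [Fintype J] (S : Finset J), S.Nonempty → ∀ p : ℕ, p.Prime →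
  3 ≤ p → (({y : J → ZMod p | IsSquare (∏ s ∈ S, - y s)}.ncard : ℕ) : ℝ) ≤
    (1 - (1 / 3 : ℝ) ^ (Fintype.card J + 1)) * (p : ℝ) ^ Fintype.card J

/-- BOX: the Chinese remainder theorem and counting in large boxes. -/
def T_BOX : Prop := ∀ (ι : Type) [Fintype ι] (δ ε : ℝ), 0 < δ → δ ≤ 1 → 0 < ε →
  ∀ P : Set ℕ, P.Infinite → (∀ p ∈ P, p.Prime) → ∀ B : (p : ℕ) → Set (ι → ZMod p),
    (∀ p ∈ P, (((B p).ncard : ℕ) : ℝ) ≤ (1 - δ) * (p : ℝ) ^ Fintype.card ι) →
    ∃ H₀ : ℕ, ∀ H : ℕ, H₀ ≤ H →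
      (({x : ι → ℤ | (∀ i, |x i| ≤ H) ∧ ∀ p ∈ P, (fun i => (x i : ZMod p)) ∈ B p}.ncard : ℕ) : ℝ) ≤
        ε * (2 * H + 1 : ℝ) ^ Fintype.card ι

/-- KUM: Kummer theory for square roots. -/
def T_KUM : Prop := ∀ (T : Type) [Finite T] (L : Subfield QBar) (v : T → QBar),
  (∀ t, v t ^ 2 ∈ L) →
  (∀ S : Finset T, S.Nonempty → ∀ β ∈ L, ∏ t ∈ S, v t ^ 2 ≠ β ^ 2) →
  ∀ t₀ : T, ∃ τ : QBar ≃+* QBar, (∀ x ∈ L, τ x = x) ∧ τ (v t₀) = - v t₀ ∧
    ∀ t, t ≠ t₀ → τ (v t) = v t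

/-- FLD: the field generated by the conjugates is a number field. -/
def T_FLD : Prop := ∀ (Λ : Type) [Finite Λ] (F : Λ → Type) [∀ l, Field (F l)]
  [∀ l, NumberField (F l)], ∃ (L : Type) (_ : Field L) (_ : NumberField L) (j : L →+* QBar),
    j.fieldRange = conjField F

/-- COUNT: for almost all tuples a given product is not a square. -/
def T_COUNT : Prop := ∀ (Λ : Type) [Fintype Λ] (F : Λ → Type) [∀ l, Field (F l)]
  [∀ l, NumberField (F l)] (ι : Λ → Type) [∀ l, Fintype (ι l)]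
  (b : ∀ l, Basis (ι l) ℤ (𝓞 (F l))) (S : Finset (Σ l, F l →+* QBar)), S.Nonempty →
  ∀ ε : ℝ, 0 < ε → ∃ H₀ : ℕ, ∀ H : ℕ, H₀ ≤ H →
    (({x : (Σ l, ι l) → ℤ | (∀ i, |x i| ≤ H) ∧ ∃ β ∈ conjField F,
      ∏ s ∈ S, (- s.2 ((∑ i, x ⟨s.1, i⟩ • b s.1 i : 𝓞 (F s.1)) : F s.1)) = β ^ 2}.ncard : ℕ) : ℝ) ≤
        ε * (2 * H + 1 : ℝ) ^ Fintype.card (Σ l, ι l)

/-- FLIP: independence modulo squares gives all single sign changes. -/
def T_FLIP : Prop := ∀ (Λ : Type) [Finite Λ] (F K : Λ → Type) [∀ l, Field (F l)]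
  [∀ l, NumberField (F l)] [∀ l, IsTotallyReal (F l)] [∀ l, Field (K l)]
  [∀ l, NumberField (K l)] [∀ l, IsCMField (K l)] [∀ l, Algebra (F l) (K l)]
  (a : ∀ l, F l) (α : ∀ l, K l), (∀ l, α l ^ 2 = - algebraMap (F l) (K l) (a l)) →
  (∀ l, IntermediateField.adjoin (F l) {α l} = ⊤) → Indep a → HasFlips K

/-- SGN: single sign changes and linearly independent types. -/
def T_SGN : Prop := ∀ (Λ : Type) [Fintype Λ] (K : Λ → Type) [∀ l, Field (K l)]
  [∀ l, NumberField (K l)] [∀ l, IsCMField (K l)], HasFlips K →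
  ∀ (m : Λ → ℕ) (Φ : ∀ l, Fin (m l) → Finset (K l →+* QBar)),
    (∀ l s, IsCMType (K l) (Φ l s)) →
    (∀ l, LinearIndependent ℚ (fun s => sgn (Φ l s))) → TateByDivisors Φ

end Pool.Agent.CMX
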