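import Pool.Agent.CMX.Targets

set_option autoImplicit false

namespace Pool.Agent.CMX

open NumberField Finset Module
open Pool.Agent.CMT (QBar IsCMType cc)
open scoped BigOperators

namespace BOX_

/-- an integer congruent to zero modulo finitely many primes -/
lemma dvd_of_primes (s : Finset ℕ) (hs : ∀ p ∈ s, p.Prime) (z : ℤ)
    (h : ∀ p ∈ s, (p : ℤ) ∣ z) : ((∏ p ∈ s, p : ℕ) : ℤ) ∣ z := by
  rw [← Int.dvd_natAbs, Int.natCast_dvd_natCast]
  exact Finset.prod_primes_dvd _ (fun p hp => (hs p hp).prime) (fun p hp => by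
    rw [← Int.natCast_dvd_natCast, Int.dvd_natAbs]
    exact h p hp)

/-- the counting argument -/
lemma count (ι : Type) [Fintype ι] (s : Finset ℕ) (hs : ∀ p ∈ s, p.Prime)
    (B : (p : ℕ) → Set (ι → ZMod p)) (H : ℕ) :
    {x : ι → ℤ | (∀ i, |x i| ≤ H) ∧ ∀ p ∈ s, (fun i => (x i : ZMod p)) ∈ B p}.ncard ≤
      (∏ p ∈ s, (B p).ncard) * ((2 * H) / (∏ p ∈ s, p) + 1) ^ Fintype.card ι := by
  classical
  set q : ℕ := ∏ p ∈ s, p with hq
  have hq0 : 0 < q := Finset.prod_pos (fun p hp => (hs p hp).pos)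
  have hfin : ∀ p ∈ s, (B p).Finite := by
    intro p hp
    have : NeZero p := ⟨(hs p hp).ne_zero⟩
    exact Set.toFinite _
  let Bf : (p : s) → Finset (ι → ZMod (p : ℕ)) := fun p => (hfin p p.2).toFinset
  let t : Finset (((p : s) → (ι → ZMod (p : ℕ))) × (ι → ℕ)) :=
    Fintype.piFinset Bf ×ˢ Fintype.piFinset (fun _ : ι => Finset.range ((2 * H) / q + 1))
  have hcard : t.card = (∏ p ∈ s, (B p).ncard) * ((2 * H) / q + 1) ^ Fintype.card ι := by
    rw [Finset.card_product, Fintype.card_piFinset, Fintype.card_piFinset]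
    congr 1
    · rw [← Finset.prod_coe_sort s (fun p => (B p).ncard)]
      refine Finset.prod_congr rfl (fun p _ => ?_)
      rw [Set.ncard_eq_toFinset_card (B p) (hfin p p.2)]
    · rw [Finset.prod_const, Finset.card_range, Finset.card_univ]
  rw [← hcard, ← Set.ncard_coe_finset]
  refine Set.ncard_le_ncard_of_injOn
    (fun x : ι → ℤ => ((fun p : s => (fun i => ((x i : ℤ) : ZMod (p : ℕ)))),
      (fun i => ((x i + H) / (q : ℤ)).toNat))) ?_ ?_ t.finite_toSet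
  · rintro x ⟨hx1, hx2⟩
    rw [Finset.mem_coe, Finset.mem_product, Fintype.mem_piFinset, Fintype.mem_piFinset]
    refine ⟨fun p => ?_, fun i => ?_⟩
    · rw [Set.Finite.mem_toFinset]
      exact hx2 p p.2
    · rw [Finset.mem_range]
      have h1 := abs_le.1 (hx1 i)
      have h2 : (x i + H) / (q : ℤ) ≤ (2 * H : ℤ) / (q : ℤ) :=
        Int.ediv_le_ediv (by exact_mod_cast hq0) (by linarith)
      have h3 : ((2 * H : ℤ) / (q : ℤ)) = (((2 * H) / q : ℕ) : ℤ) := by push_cast; rfl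
      have h4 : 0 ≤ (x i + H) / (q : ℤ) := Int.ediv_nonneg (by linarith) (by positivity)
      rw [h3] at h2
      show ((x i + H) / (q : ℤ)).toNat < (2 * H) / q + 1
      omega
  · rintro x ⟨hx1, hx2⟩ y ⟨hy1, hy2⟩ hxy
    funext i
    have h1 := congrArg Prod.fst hxy
    have h2 := congrFun (congrArg Prod.snd hxy) i
    have hdvd : (q : ℤ) ∣ x i - y i := by
      refine dvd_of_primes s hs _ (fun p hp => ?_)
      have h3 := congrFun (congrFun h1 ⟨p, hp⟩) i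
      have h4 : ((x i : ℤ) : ZMod p) = ((y i : ℤ) : ZMod p) := h3
      have h5 : ((x i - y i : ℤ) : ZMod p) = 0 := by
        push_cast
        rw [h4, sub_self]
      exact (ZMod.intCast_zmod_eq_zero_iff_dvd _ p).1 h5
    have hx' := abs_le.1 (hx1 i)
    have hy' := abs_le.1 (hy1 i)
    have h4 : 0 ≤ (x i + H) / (q : ℤ) := Int.ediv_nonneg (by linarith) (by positivity)
    have h5 : 0 ≤ (y i + H) / (q : ℤ) := Int.ediv_nonneg (by linarith) (by positivity)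
    have h6 : (x i + H) / (q : ℤ) = (y i + H) / (q : ℤ) := by
      have h7 : ((x i + H) / (q : ℤ)).toNat = ((y i + H) / (q : ℤ)).toNat := h2
      omega
    have hqz : (0 : ℤ) < q := by exact_mod_cast hq0
    have h8 := Int.emod_add_mul_ediv (x i + H) q
    have h9 := Int.emod_add_mul_ediv (y i + H) q
    have h10 := Int.emod_nonneg (x i + H) hqz.ne'
    have h11 := Int.emod_nonneg (y i + H) hqz.ne'
    have h12 := Int.emod_lt_of_pos (x i + H) hqz
    have h13 := Int.emod_lt_of_pos (y i + H) hqz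
    rw [h6] at h8
    obtain ⟨c, hc⟩ := hdvd
    have h14 : (q : ℤ) * c < q * 1 := by rw [← hc]; linarith
    have h15 : (q : ℤ) * (-1) < q * c := by rw [← hc]; linarith
    have h16 : c < 1 := lt_of_mul_lt_mul_left h14 hqz.le
    have h17 : -1 < c := lt_of_mul_lt_mul_left h15 hqz.le
    have h18 : c = 0 := by omega
    rw [h18, mul_zero] at hc
    linarith

/-- the comparison for large boxes -/
lemma large (n q : ℕ) : ∃ H₀ : ℕ, ∀ H : ℕ, H₀ ≤ H →
    ((2 * H + q : ℝ)) ^ n ≤ 2 * (2 * H + 1 : ℝ) ^ n := by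
  refine ⟨n * q, fun H hH => ?_⟩
  have hH' : (n : ℝ) * q ≤ H := by exact_mod_cast hH
  have hpos : (0 : ℝ) < 2 * H + 1 := by positivity
  set u : ℝ := q / (2 * H + 1) with hu
  have hu0 : 0 ≤ u := by positivity
  have h1 : (2 * H + q : ℝ) ≤ (2 * H + 1) * (1 + u) := by
    rw [hu, mul_add, mul_one, mul_div_cancel₀ _ hpos.ne']
    linarith
  have h2 : (2 * H + q : ℝ) ^ n ≤ ((2 * H + 1) * (1 + u)) ^ n :=
    pow_le_pow_left₀ (by positivity) h1 n
  have h3 : (1 + u) ^ n ≤ Real.exp (n * u) := by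
    rw [Real.exp_nat_mul]
    refine pow_le_pow_left₀ (by linarith) ?_ n
    rw [add_comm]
    exact Real.add_one_le_exp u
  have h4 : (n : ℝ) * u ≤ 1 / 2 := by
    rw [hu, ← mul_div_assoc, div_le_div_iff₀ hpos (by norm_num)]
    linarith
  have h5 : Real.exp (1 / 2) ≤ 2 := by
    have h6 : Real.exp (1 / 2) * Real.exp (1 / 2) = Real.exp 1 := by
      rw [← Real.exp_add]; norm_num
    have h7 := Real.exp_one_lt_d9
    have h8 := Real.exp_pos (1 / 2)
    nlinarith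
  have h6 : (1 + u) ^ n ≤ 2 := (h3.trans (Real.exp_le_exp.2 h4)).trans h5
  rw [mul_pow] at h2
  refine h2.trans ?_
  have h7 := mul_le_mul_of_nonneg_left h6 (pow_nonneg hpos.le n)
  linarith

end BOX_

open BOX_ in
theorem p_BOX : T_BOX := by
  intro ι _ δ ε hδ hδ1 hε P hP hprime B hB
  obtain ⟨k, hk⟩ : ∃ k : ℕ, (1 - δ) ^ k ≤ ε / 2 := by
    obtain ⟨k, hk⟩ := exists_pow_lt_of_lt_one (half_pos hε) (by linarith : 1 - δ < 1)
    exact ⟨k, hk.le⟩
  obtain ⟨s, hsP, hsk⟩ := hP.exists_subset_card_eq k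
  have hs : ∀ p ∈ s, p.Prime := fun p hp => hprime p (hsP hp)
  set q : ℕ := ∏ p ∈ s, p with hq
  have hq0 : 0 < q := Finset.prod_pos (fun p hp => (hs p hp).pos)
  set n := Fintype.card ι with hn
  obtain ⟨H₀, hH₀⟩ := large n q
  refine ⟨H₀, fun H hH => ?_⟩
  have h1 : {x : ι → ℤ | (∀ i, |x i| ≤ H) ∧ ∀ p ∈ P, (fun i => (x i : ZMod p)) ∈ B p}.ncard ≤
      {x : ι → ℤ | (∀ i, |x i| ≤ H) ∧ ∀ p ∈ s, (fun i => (x i : ZMod p)) ∈ B p}.ncard := by
    refine Set.ncard_le_ncard (fun x hx => ⟨hx.1, fun p hp => hx.2 p (hsP hp)⟩) ?_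
    refine Set.Finite.subset (Set.Finite.pi' (fun _ : ι => Set.finite_Icc (-(H : ℤ)) H)) ?_
    intro x hx i
    exact Set.mem_Icc.2 (abs_le.1 (hx.1 i))
  have h2 := h1.trans (count ι s hs B H)
  have h3 : (({x : ι → ℤ | (∀ i, |x i| ≤ H) ∧ ∀ p ∈ P, (fun i => (x i : ZMod p)) ∈ B p}.ncard : ℕ) :
      ℝ) ≤ ((∏ p ∈ s, (B p).ncard : ℕ) : ℝ) * ((((2 * H) / q + 1 : ℕ) : ℝ)) ^ n := by
    exact_mod_cast h2
  refine h3.trans ?_
  have h4 : ((∏ p ∈ s, (B p).ncard : ℕ) : ℝ) ≤ (1 - δ) ^ k * (q : ℝ) ^ n := by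
    rw [Nat.cast_prod]
    calc ∏ p ∈ s, ((B p).ncard : ℝ) ≤ ∏ p ∈ s, ((1 - δ) * (p : ℝ) ^ n) :=
          Finset.prod_le_prod (fun _ _ => Nat.cast_nonneg _) (fun p hp => hB p (hsP hp))
      _ = (1 - δ) ^ k * (q : ℝ) ^ n := by
          rw [Finset.prod_mul_distrib, Finset.prod_const, hsk, Finset.prod_pow, hq, Nat.cast_prod]
  have h5 : (((2 * H) / q + 1 : ℕ) : ℝ) * q ≤ 2 * H + q := by
    have h6 : ((2 * H) / q + 1) * q ≤ 2 * H + q := by
      rw [add_mul, one_mul]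
      exact Nat.add_le_add_right (Nat.div_mul_le_self _ _) _
    exact_mod_cast h6
  have h1δ : 0 ≤ 1 - δ := by linarith
  calc ((∏ p ∈ s, (B p).ncard : ℕ) : ℝ) * ((((2 * H) / q + 1 : ℕ) : ℝ)) ^ n
      ≤ ((1 - δ) ^ k * (q : ℝ) ^ n) * ((((2 * H) / q + 1 : ℕ) : ℝ)) ^ n :=
        mul_le_mul_of_nonneg_right h4 (by positivity)
    _ = (1 - δ) ^ k * ((((2 * H) / q + 1 : ℕ) : ℝ) * q) ^ n := by rw [mul_pow]; ring
    _ ≤ (1 - δ) ^ k * (2 * H + q : ℝ) ^ n :=
        mul_le_mul_of_nonneg_left (pow_le_pow_left₀ (by positivity) h5 n) (by positivity)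
    _ ≤ (ε / 2) * (2 * (2 * H + 1 : ℝ) ^ n) :=
        mul_le_mul hk (hH₀ H hH) (by positivity) (by positivity)
    _ = ε * (2 * H + 1 : ℝ) ^ n := by ring

end Pool.Agent.CMX
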