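import Mathlib
import Pool.Agent.CMX.Targets

set_option autoImplicit false
set_option linter.unusedSectionVars false
set_option linter.unusedVariables false
set_option maxHeartbeats 4000000

namespace Pool.Agent.CMX

open NumberField Finset Module
open Pool.Agent.CMT (QBar IsCMType cc)
open scoped BigOperators

namespace COUNT_

theorem exists_lift {K L M : Type} [Field K] [Field L] [Field M] (j : L →+* M) (σ : K →+* M)
    (h : ∀ x, ∃ y, j y = σ x) : ∃ σ' : K →+* L, ∀ x, j (σ' x) = σ x := by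
  choose f hf using h
  refine ⟨{ toFun := f, map_one' := ?_, map_mul' := ?_, map_zero' := ?_, map_add' := ?_ }, hf⟩
  · apply j.injective; rw [hf, map_one, map_one]
  · intro x y; apply j.injective; rw [hf, map_mul, map_mul, hf, hf]
  · apply j.injective; rw [hf, map_zero, map_zero]
  · intro x y; apply j.injective; rw [hf, map_add, map_add, hf, hf]

end COUNT_

open COUNT_ in
theorem p_COUNT (h1 : T_SPL) (h2 : T_DIST) (h3 : T_EQUI) (h4 : T_FP) (h5 : T_BOX) (h6 : T_FLD) :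
    T_COUNT := by
  classical
  intro Λ _ F _ _ ι _ b S hS ε hε
  obtain ⟨L, iL, iNL, j, hj⟩ := h6 Λ F
  have hlift : ∀ (l : Λ) (σ : F l →+* QBar), ∃ σ' : F l →+* L, ∀ x, j (σ' x) = σ x := by
    intro l σ
    apply exists_lift
    intro x
    have hx : σ x ∈ conjField F := by
      have : σ.fieldRange ≤ conjField F := by
        unfold conjField
        exact le_iSup_of_le l (le_iSup_of_le σ le_rfl)
      exact this ⟨x, rfl⟩
    rw [← hj] at hx
    exact hx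
  choose pr hpr using hlift
  have hprinj : ∀ l (σ τ : F l →+* QBar), σ ≠ τ → pr l σ ≠ pr l τ := by
    intro l σ τ hne h
    apply hne
    ext x
    rw [← hpr l σ x, ← hpr l τ x, h]
  have hD : ∀ l (σ τ : F l →+* QBar), ∃ N : ℕ, σ ≠ τ → ∀ p : ℕ, p.Prime → N < p →
      ∀ ρ : 𝓞 L →+* ZMod p, ρ.comp (RingOfIntegers.mapRingHom (pr l σ)) ≠
        ρ.comp (RingOfIntegers.mapRingHom (pr l τ)) := by
    intro l σ τ
    by_cases hne : σ ≠ τ
    · obtain ⟨N, hN⟩ := h2 (F l) L (pr l σ) (pr l τ) (hprinj l σ τ hne)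
      exact ⟨N, fun _ => hN⟩
    · exact ⟨0, fun h => absurd h hne⟩
  choose N hN using hD
  set N0 : ℕ := 3 + ∑ l, ∑ σ, ∑ τ, N l σ τ with hN0
  have hNle : ∀ l σ τ, N l σ τ ≤ N0 := by
    intro l σ τ
    have e1 : N l σ τ ≤ ∑ τ, N l σ τ := Finset.single_le_sum (f := fun τ => N l σ τ)
      (fun _ _ => Nat.zero_le _) (Finset.mem_univ τ)
    have e2 : ∑ τ, N l σ τ ≤ ∑ σ, ∑ τ, N l σ τ := Finset.single_le_sum
      (f := fun σ => ∑ τ, N l σ τ) (fun _ _ => Nat.zero_le _) (Finset.mem_univ σ)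
    have e3 : ∑ σ, ∑ τ, N l σ τ ≤ ∑ l, ∑ σ, ∑ τ, N l σ τ := Finset.single_le_sum
      (f := fun l => ∑ σ, ∑ τ, N l σ τ) (fun _ _ => Nat.zero_le _) (Finset.mem_univ l)
    omega
  set P : Set ℕ := {p | p.Prime ∧ N0 < p ∧ Nonempty (𝓞 L →+* ZMod p)} with hP
  have hPinf : P.Infinite := by
    apply Set.infinite_of_forall_exists_gt
    intro a
    obtain ⟨p, hp1, hp2, hp3⟩ := h1 L (max a N0)
    exact ⟨p, ⟨hp1, lt_of_le_of_lt (le_max_right _ _) hp2, hp3⟩,
      lt_of_le_of_lt (le_max_left _ _) hp2⟩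
  have hρ : ∀ p : ℕ, ∃ ρ : (if p ∈ P then (𝓞 L →+* ZMod p) else Unit), True := by
    intro p
    by_cases hp : p ∈ P
    · rw [if_pos hp]
      exact ⟨Classical.choice hp.2.2, trivial⟩
    · rw [if_neg hp]
      exact ⟨(), trivial⟩
  let B : (p : ℕ) → Set ((Σ l, ι l) → ZMod p) := fun p =>
    if h : p ∈ P then {y | IsSquare (∏ s ∈ S, - (∑ i, y ⟨s.1, i⟩ *
      ((Classical.choice h.2.2 : 𝓞 L →+* ZMod p).comp (RingOfIntegers.mapRingHom (pr s.1 s.2)))
        (b s.1 i)))} else ∅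
  have hcardl : ∀ l, Fintype.card (F l →+* QBar) = Fintype.card (ι l) := by
    intro l
    rw [NumberField.Embeddings.card (F l) QBar, ← RingOfIntegers.rank,
      Module.finrank_eq_card_basis (b l)]
  have hcard : Fintype.card (Σ l, F l →+* QBar) = Fintype.card (Σ l, ι l) := by
    rw [Fintype.card_sigma, Fintype.card_sigma]
    exact Finset.sum_congr rfl fun l _ => hcardl l
  set δ : ℝ := (1 / 3 : ℝ) ^ (Fintype.card (Σ l, F l →+* QBar) + 1) with hδ
  have hδ0 : 0 < δ := by positivity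
  have hδ1 : δ ≤ 1 := pow_le_one₀ (by norm_num) (by norm_num)
  have hBcard : ∀ p ∈ P, (((B p).ncard : ℕ) : ℝ) ≤ (1 - δ) * (p : ℝ) ^ Fintype.card (Σ l, ι l) := by
    intro p hp
    have : Fact p.Prime := ⟨hp.1⟩
    have hBp : B p = {y | IsSquare (∏ s ∈ S, - (∑ i, y ⟨s.1, i⟩ *
      ((Classical.choice hp.2.2 : 𝓞 L →+* ZMod p).comp (RingOfIntegers.mapRingHom (pr s.1 s.2)))
        (b s.1 i)))} := by
      simp only [B, dif_pos hp]
    rw [hBp]
    set ρ : 𝓞 L →+* ZMod p := Classical.choice hp.2.2 with hρdef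
    let r : ∀ l, (F l →+* QBar) → (𝓞 (F l) →+* ZMod p) := fun l σ =>
      ρ.comp (RingOfIntegers.mapRingHom (pr l σ))
    have hrinj : ∀ l, Function.Injective (r l) := by
      intro l σ τ hst
      by_contra hne
      exact hN l σ τ hne p hp.1 (lt_of_le_of_lt (hNle l σ τ) hp.2.1) ρ hst
    have hbij : ∀ l, Function.Injective (fun (x : ι l → ZMod p) (σ : F l →+* QBar) =>
        ∑ i, x i * r l σ (b l i)) := fun l =>
      (h3 (F l) (ι l) (F l →+* QBar) (b l) p (r l) (hrinj l) (hcardl l)).1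
    let Ψ : ((Σ l, ι l) → ZMod p) → ((Σ l, F l →+* QBar) → ZMod p) := fun y s =>
      ∑ i, y ⟨s.1, i⟩ * r s.1 s.2 (b s.1 i)
    have hΨ : Function.Injective Ψ := by
      intro y y' hyy
      funext t
      obtain ⟨l, i⟩ := t
      have h := @hbij l (fun i => y ⟨l, i⟩) (fun i => y' ⟨l, i⟩) (by
        funext σ
        exact congrFun hyy ⟨l, σ⟩)
      exact congrFun h i
    have h4' := h4 (Σ l, F l →+* QBar) S hS p hp.1 (by have := hp.2.1; omega)
    rw [← hcard]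
    refine le_trans ?_ h4'
    have hle : {y : (Σ l, ι l) → ZMod p | IsSquare (∏ s ∈ S, - (∑ i, y ⟨s.1, i⟩ *
      (ρ.comp (RingOfIntegers.mapRingHom (pr s.1 s.2))) (b s.1 i)))}.ncard ≤
      {y : (Σ l, F l →+* QBar) → ZMod p | IsSquare (∏ s ∈ S, - y s)}.ncard := by
      apply Set.ncard_le_ncard_of_injOn Ψ
      · intro y hy
        exact hy
      · exact hΨ.injOn
    exact_mod_cast hle
  obtain ⟨H₀, hH₀⟩ := h5 (Σ l, ι l) δ ε hδ0 hδ1 hε P hPinf (fun p hp => hp.1) B hBcard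
  refine ⟨H₀, fun H hH => le_trans ?_ (hH₀ H hH)⟩
  have hfin : {x : (Σ l, ι l) → ℤ | (∀ i, |x i| ≤ H) ∧
      ∀ p ∈ P, (fun i => (x i : ZMod p)) ∈ B p}.Finite := by
    refine (Set.finite_Icc (fun _ => -(H : ℤ)) (fun _ => (H : ℤ))).subset fun x hx => ?_
    rw [Set.mem_Icc]
    exact ⟨fun i => (abs_le.1 (hx.1 i)).1, fun i => (abs_le.1 (hx.1 i)).2⟩
  have hsub : {x : (Σ l, ι l) → ℤ | (∀ i, |x i| ≤ H) ∧ ∃ β ∈ conjField F,
      ∏ s ∈ S, (- s.2 ((∑ i, x ⟨s.1, i⟩ • b s.1 i : 𝓞 (F s.1)) : F s.1)) = β ^ 2} ⊆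
      {x : (Σ l, ι l) → ℤ | (∀ i, |x i| ≤ H) ∧ ∀ p ∈ P, (fun i => (x i : ZMod p)) ∈ B p} := by
    rintro x ⟨hx, β, hβ, hprod⟩
    refine ⟨hx, fun p hp => ?_⟩
    rw [← hj] at hβ
    obtain ⟨β', rfl⟩ := hβ
    have e1 : ∏ s ∈ S, (- pr s.1 s.2 ((∑ i, x ⟨s.1, i⟩ • b s.1 i : 𝓞 (F s.1)) : F s.1)) =
        β' ^ 2 := by
      apply j.injective
      rw [map_prod, map_pow, ← hprod]
      refine Finset.prod_congr rfl fun s _ => ?_
      rw [map_neg, hpr]
    let c : (Σ l, F l →+* QBar) → 𝓞 L := fun s =>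
      RingOfIntegers.mapRingHom (pr s.1 s.2) (∑ i, x ⟨s.1, i⟩ • b s.1 i)
    have e2 : algebraMap (𝓞 L) L (∏ s ∈ S, (- c s)) = β' ^ 2 := by
      rw [← e1, map_prod]
      refine Finset.prod_congr rfl fun s _ => ?_
      rw [map_neg]
      rfl
    have hint : IsIntegral ℤ β' := by
      apply IsIntegral.of_pow (n := 2) (by norm_num)
      rw [← e2]
      exact RingOfIntegers.isIntegral_coe _
    let γ : 𝓞 L := ⟨β', hint⟩
    have e3 : ∏ s ∈ S, (- c s) = γ ^ 2 := by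
      apply RingOfIntegers.ext
      exact e2
    have hBp : B p = {y | IsSquare (∏ s ∈ S, - (∑ i, y ⟨s.1, i⟩ *
      ((Classical.choice hp.2.2 : 𝓞 L →+* ZMod p).comp (RingOfIntegers.mapRingHom (pr s.1 s.2)))
        (b s.1 i)))} := by
      simp only [B, dif_pos hp]
    rw [hBp]
    set ρ : 𝓞 L →+* ZMod p := Classical.choice hp.2.2 with hρdef
    have e4 := congrArg ρ e3
    rw [map_prod, map_pow] at e4
    refine ⟨ρ γ, ?_⟩
    rw [← pow_two, ← e4]
    refine Finset.prod_congr rfl fun s _ => ?_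
    rw [map_neg]
    congr 1
    show _ = ρ (RingOfIntegers.mapRingHom (pr s.1 s.2) (∑ i, x ⟨s.1, i⟩ • b s.1 i))
    rw [map_sum, map_sum]
    refine Finset.sum_congr rfl fun i _ => ?_
    rw [zsmul_eq_mul, map_mul, map_mul, map_intCast, map_intCast]
    rfl
  exact_mod_cast Set.ncard_le_ncard hsub hfin

end Pool.Agent.CMX
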