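import Mathlib
import Pool.Agent.CMX.Targets

set_option autoImplicit false

/-!
# Distinct reductions and bijectivity
-/

namespace Pool.Agent.CMX

open NumberField Finset Module

theorem p_DIST : T_DIST := by
  intro F L _ _ _ _ σ τ hne
  -- an integral element on which they differ
  have hx : ∃ x : 𝓞 F, σ x ≠ τ x := by
    by_contra hcon
    push Not at hcon
    apply hne
    apply RingHom.ext
    intro z
    obtain ⟨a, b, hb, rfl⟩ := IsFractionRing.div_surjective (A := 𝓞 F) z
    rw [map_div₀, map_div₀]
    have h1 : σ (algebraMap (𝓞 F) F a) = τ (algebraMap (𝓞 F) F a) := hcon a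
    have h2 : σ (algebraMap (𝓞 F) F b) = τ (algebraMap (𝓞 F) F b) := hcon b
    rw [h1, h2]
  obtain ⟨x, hx⟩ := hx
  set d : 𝓞 L := RingOfIntegers.mapRingHom σ x - RingOfIntegers.mapRingHom τ x with hd
  have hd0 : d ≠ 0 := by
    intro h0
    apply hx
    have h1 : (d : L) = 0 := by rw [h0]; rfl
    have h2 : (d : L) = σ x - τ x := by
      rw [hd]; rfl
    rw [h2] at h1
    exact sub_eq_zero.mp h1
  set m : ℕ := Ideal.absNorm (Ideal.span {d}) with hm
  have hm0 : m ≠ 0 := by
    rw [hm, Ne, Ideal.absNorm_eq_zero_iff]
    simpa using hd0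
  have hdm : d ∣ (m : 𝓞 L) := by
    have := Ideal.absNorm_mem (Ideal.span {d})
    rwa [Ideal.mem_span_singleton] at this
  refine ⟨m, ?_⟩
  intro p hp hmp ρ heq
  have h1 : ρ d = 0 := by
    rw [hd, map_sub]
    have := RingHom.congr_fun heq x
    simp only [RingHom.comp_apply] at this
    rw [this, sub_self]
  obtain ⟨c, hc⟩ := hdm
  have h2 : ρ (m : 𝓞 L) = 0 := by rw [hc, map_mul, h1, zero_mul]
  rw [map_natCast, ZMod.natCast_eq_zero_iff] at h2
  exact absurd (Nat.le_of_dvd (Nat.pos_of_ne_zero hm0) h2) (by omega)

theorem p_EQUI : T_EQUI := by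
  intro F ι J _ _ _ _ b p _ r hr hcard
  classical
  have e : J ≃ ι := Fintype.equivOfCardEq hcard
  -- independence of the homomorphisms
  have hind : LinearIndependent (ZMod p) (fun j : J => (fun x : 𝓞 F => r j x)) := by
    have h := linearIndependent_monoidHom (𝓞 F) (ZMod p)
    have h2 := h.comp (fun j : J => ((r j : 𝓞 F →+* ZMod p) : 𝓞 F →* ZMod p)) (by
      intro j₁ j₂ h12
      apply hr
      apply RingHom.ext
      intro x
      exact DFunLike.congr_fun h12 x)
    exact h2
  -- the square matrix
  set M : Matrix J J (ZMod p) := fun j k => r j (b (e k)) with hM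
  have hrows : LinearIndependent (ZMod p) (fun j => M j) := by
    rw [Fintype.linearIndependent_iff] at hind ⊢
    intro c hc
    apply hind c
    have h3 : ∀ i : ι, ∑ j, c j * r j (b i) = 0 := by
      intro i
      have := congrFun hc (e.symm i)
      simpa [hM, Finset.sum_apply] using this
    funext x
    have hx := b.sum_repr x
    simp only [Finset.sum_apply, Pi.smul_apply, smul_eq_mul, Pi.zero_apply]
    rw [← hx]
    have h4 : ∀ j, r j (∑ i, b.repr x i • b i) = ∑ i, ((b.repr x i : ℤ) : ZMod p) * r j (b i) := by
      intro j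
      rw [map_sum]
      apply Finset.sum_congr rfl
      intro i _
      rw [map_zsmul, zsmul_eq_mul]
    simp only [h4, Finset.mul_sum]
    rw [Finset.sum_comm]
    apply Finset.sum_eq_zero
    intro i _
    have : ∑ j, c j * (((b.repr x i : ℤ) : ZMod p) * r j (b i))
        = ((b.repr x i : ℤ) : ZMod p) * ∑ j, c j * r j (b i) := by
      rw [Finset.mul_sum]
      apply Finset.sum_congr rfl
      intro j _
      ring
    rw [this, h3 i, mul_zero]
  have hunit : IsUnit M := Matrix.linearIndependent_rows_iff_isUnit.mp hrows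
  have hbij : Function.Bijective M.mulVec := by
    have hinj : Function.Injective M.mulVec := Matrix.mulVec_injective_iff_isUnit.mpr hunit
    exact (Finite.injective_iff_bijective.mp hinj)
  have hcomp : (fun (x : ι → ZMod p) (j : J) => ∑ i, x i * r j (b i))
      = M.mulVec ∘ (fun x : ι → ZMod p => fun k : J => x (e k)) := by
    funext x j
    simp only [Function.comp, Matrix.mulVec, dotProduct, hM]
    rw [← e.sum_comp]
    apply Finset.sum_congr rfl
    intro k _
    ring
  rw [hcomp]
  apply hbij.comp
  constructor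
  · intro x y hxy
    funext i
    have := congrFun hxy (e.symm i)
    simpa using this
  · intro y
    refine ⟨fun i => y (e.symm i), ?_⟩
    funext k
    simp

end Pool.Agent.CMX
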