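import Pool.Agent.CMX.Targets

set_option autoImplicit false

namespace Pool.Agent.CMX

open NumberField Finset Module
open Pool.Agent.CMT (QBar IsCMType cc)

theorem p_FLD : T_FLD := by
  intro Λ _ F _ _
  let M : IntermediateField ℚ QBar := ⨆ l, ⨆ σ : F l →+* QBar, (σ.toRatAlgHom).fieldRange
  have hfin1 : ∀ l (σ : F l →+* QBar), FiniteDimensional ℚ (σ.toRatAlgHom).fieldRange := by
    intro l σ
    exact Module.Finite.of_surjective (σ.toRatAlgHom).rangeRestrict.toLinearMap
      (σ.toRatAlgHom).rangeRestrict_surjective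
  have hfin2 : ∀ l, FiniteDimensional ℚ
      (⨆ σ : F l →+* QBar, (σ.toRatAlgHom).fieldRange : IntermediateField ℚ QBar) := by
    intro l
    have := hfin1 l
    exact IntermediateField.finiteDimensional_iSup_of_finite
  have hfin : FiniteDimensional ℚ M := by
    exact IntermediateField.finiteDimensional_iSup_of_finite
  have hNF : NumberField M := NumberField.of_module_finite ℚ M
  refine ⟨M, inferInstance, hNF, algebraMap M QBar, ?_⟩
  apply le_antisymm
  · let N : IntermediateField ℚ QBar := (conjField F).toIntermediateField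
      (fun x => by rw [eq_ratCast]; exact SubfieldClass.ratCast_mem _ x)
    have hMN : M ≤ N := by
      refine iSup_le fun l => iSup_le fun σ => ?_
      rintro _ ⟨x, rfl⟩
      show σ x ∈ conjField F
      have h1 : σ.fieldRange ≤ conjField F :=
        (le_iSup (fun σ : F l →+* QBar => σ.fieldRange) σ).trans
          (le_iSup (fun l => ⨆ σ : F l →+* QBar, σ.fieldRange) l)
      exact h1 ⟨x, rfl⟩
    rintro _ ⟨x, rfl⟩
    exact hMN x.2
  · refine iSup_le fun l => iSup_le fun σ => ?_
    rintro _ ⟨x, rfl⟩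
    have h1 : (σ.toRatAlgHom).fieldRange ≤ M :=
      (le_iSup (fun σ : F l →+* QBar => (σ.toRatAlgHom).fieldRange) σ).trans
        (le_iSup (fun l => ⨆ σ : F l →+* QBar, (σ.toRatAlgHom).fieldRange) l)
    exact ⟨⟨σ x, h1 ⟨x, rfl⟩⟩, rfl⟩

end Pool.Agent.CMX
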