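import Mathlib
import Pool.Agent.CMX.Targets

set_option autoImplicit false

/-!
# Independence modulo squares gives all single sign changes (FLIP)
-/

namespace Pool.Agent.CMX

open NumberField Finset Module
open Pool.Agent.CMT (QBar IsCMType cc)
open scoped BigOperators

namespace FLIP_

/-- Two homomorphisms that agree on `F` and on a generator are equal. -/
theorem hom_ext {F K L : Type} [Field F] [Field K] [Field L] [Algebra F K] {α : K}
    (hα : IntermediateField.adjoin F {α} = ⊤) {φ ψ : K →+* L}
    (h1 : ∀ x : F, φ (algebraMap F K x) = ψ (algebraMap F K x)) (h2 : φ α = ψ α) : φ = ψ := by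
  let S : IntermediateField F K :=
    Subfield.toIntermediateField (RingHom.eqLocusField φ ψ) (fun x => h1 x)
  have h3 : IntermediateField.adjoin F {α} ≤ S := by
    rw [IntermediateField.adjoin_le_iff, Set.singleton_subset_iff]
    exact h2
  rw [hα] at h3
  exact RingHom.ext fun x => h3 (IntermediateField.mem_top (x := x))

/-- The complex conjugation fixes the totally real field. -/
theorem conj_fix {F K : Type} [Field F] [NumberField F] [IsTotallyReal F] [Field K]
    [NumberField K] [IsCMField K] [Algebra F K] (x : F) :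
    IsCMField.complexConj K (algebraMap F K x) = algebraMap F K x := by
  rw [IsCMField.complexConj_eq_self_iff, mem_maximalRealSubfield_iff]
  intro φ
  have h := IsTotallyReal.complexEmbedding_isReal (φ.comp (algebraMap F K))
  exact RingHom.congr_fun h x

theorem conj_gen {F K : Type} [Field F] [NumberField F] [IsTotallyReal F] [Field K]
    [NumberField K] [IsCMField K] [Algebra F K] (a : F) (α : K)
    (ha : α ^ 2 = - algebraMap F K a) (hα : IntermediateField.adjoin F {α} = ⊤) :
    IsCMField.complexConj K α = - α := by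
  have h1 : (IsCMField.complexConj K α) ^ 2 = α ^ 2 := by
    rw [← map_pow, ha, map_neg, conj_fix]
  rcases sq_eq_sq_iff_eq_or_eq_neg.1 h1 with h | h
  · exfalso
    have h2 : ((IsCMField.complexConj K : K ≃ₐ[maximalRealSubfield K] K) : K →+* K) =
        RingHom.id K :=
      hom_ext hα (fun x => conj_fix x) h
    exact IsCMField.complexConj_ne_one K (AlgEquiv.ext fun x => RingHom.congr_fun h2 x)
  · exact h

end FLIP_

open FLIP_ in
theorem p_FLIP (hK : T_KUM) : T_FLIP := by
  intro Λ _ F K _ _ _ _ _ _ _ a α ha hα hI l φ₀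
  have hv : ∀ t : (Σ l, F l →+* QBar), ∃ v : QBar, v ^ 2 = - t.2 (a t.1) := fun t =>
    IsAlgClosed.exists_pow_nat_eq _ two_pos
  choose v hv using hv
  have hmem : ∀ (l : Λ) (σ : F l →+* QBar) (x : F l), σ x ∈ conjField F := by
    intro l σ x
    have h1 : σ.fieldRange ≤ conjField F :=
      (le_iSup (fun σ : F l →+* QBar => σ.fieldRange) σ).trans
        (le_iSup (fun l => ⨆ σ : F l →+* QBar, σ.fieldRange) l)
    exact h1 ⟨x, rfl⟩
  obtain ⟨τ, hτ1, hτ2, hτ3⟩ := hK (Σ l, F l →+* QBar) (conjField F) v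
    (fun t => by rw [hv]; exact neg_mem (hmem _ _ _))
    (fun S hS β hβ => by
      have h := hI S hS β hβ
      simpa only [hv] using h)
    ⟨l, φ₀.comp (algebraMap (F l) (K l))⟩
  have hval : ∀ (l' : Λ) (φ : K l' →+* QBar),
      φ (α l') = v ⟨l', φ.comp (algebraMap (F l') (K l'))⟩ ∨
        φ (α l') = - v ⟨l', φ.comp (algebraMap (F l') (K l'))⟩ := by
    intro l' φ
    refine sq_eq_sq_iff_eq_or_eq_neg.1 ?_
    rw [hv, ← map_pow, ha, map_neg]
    rfl
  have hfix : ∀ (l' : Λ) (φ : K l' →+* QBar),
      (⟨l', φ.comp (algebraMap (F l') (K l'))⟩ : Σ l, F l →+* QBar) ≠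
        ⟨l, φ₀.comp (algebraMap (F l) (K l))⟩ → (τ : QBar →+* QBar).comp φ = φ := by
    intro l' φ hne
    refine hom_ext (hα l') (fun x => hτ1 _ (hmem l' (φ.comp (algebraMap (F l') (K l'))) x)) ?_
    have h1 := hτ3 _ hne
    change τ (φ (α l')) = φ (α l')
    rcases hval l' φ with h | h
    · rw [h, h1]
    · rw [h, map_neg, h1]
  have hcc : ∀ (φ : K l →+* QBar), cc φ (α l) = - φ (α l) := by
    intro φ
    change φ (IsCMField.complexConj (K l) (α l)) = _
    rw [conj_gen (a l) (α l) (ha l) (hα l), map_neg]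
  have hccF : ∀ (φ : K l →+* QBar) (x : F l),
      cc φ (algebraMap (F l) (K l) x) = φ (algebraMap (F l) (K l) x) := by
    intro φ x
    change φ (IsCMField.complexConj (K l) (algebraMap (F l) (K l) x)) = _
    rw [conj_fix]
  refine ⟨τ, ?_, ?_, ?_⟩
  · refine hom_ext (hα l) (fun x => ?_) ?_
    · rw [hccF]
      exact hτ1 _ (hmem l (φ₀.comp (algebraMap (F l) (K l))) x)
    · rw [hcc]
      change τ (φ₀ (α l)) = _
      rcases hval l φ₀ with h | h
      · rw [h, hτ2]
      · rw [h, map_neg, hτ2]
  · intro φ h1 h2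
    refine hfix l φ fun h => ?_
    have h3 : φ.comp (algebraMap (F l) (K l)) = φ₀.comp (algebraMap (F l) (K l)) := by
      simpa using h
    have h4 : (φ (α l)) ^ 2 = (φ₀ (α l)) ^ 2 := by
      rw [← map_pow, ← map_pow, ha, map_neg, map_neg]
      exact congrArg Neg.neg (RingHom.congr_fun h3 (a l))
    rcases sq_eq_sq_iff_eq_or_eq_neg.1 h4 with h5 | h5
    · exact h1 (hom_ext (hα l) (fun x => RingHom.congr_fun h3 x) h5)
    · exact h2 (hom_ext (hα l) (fun x => by rw [hccF]; exact RingHom.congr_fun h3 x)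
        (by rw [hcc]; exact h5))
  · intro l' hl φ
    exact hfix l' φ fun h => hl (congrArg Sigma.fst h)

end Pool.Agent.CMX
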