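import Pool.Agent.CMX.Targets

/-!
# Vectors modulo `p` whose product is not a square
-/

namespace Pool.Agent.CMX

namespace FP_

variable {J : Type} [Fintype J] {p : ℕ} [hp : Fact p.Prime]

open Classical in
/-- multiplication of the coordinate `s₀` by `n` -/
noncomputable def mu (s₀ : J) (n : ZMod p) (y : J → ZMod p) : J → ZMod p :=
  Function.update y s₀ (n * y s₀)

omit [Fintype J] in
theorem mu_prod {S : Finset J} {s₀ : J} (h₀ : s₀ ∈ S) (n : ZMod p) (y : J → ZMod p) :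
    ∏ s ∈ S, - mu s₀ n y s = n * ∏ s ∈ S, - y s := by
  classical
  rw [← Finset.mul_prod_erase S _ h₀, ← Finset.mul_prod_erase S (fun s => - y s) h₀]
  have h1 : mu s₀ n y s₀ = n * y s₀ := by
    unfold mu
    rw [Function.update_self]
  have h2 : ∏ s ∈ S.erase s₀, - mu s₀ n y s = ∏ s ∈ S.erase s₀, - y s := by
    refine Finset.prod_congr rfl fun s hs => ?_
    unfold mu
    rw [Function.update_of_ne (Finset.ne_of_mem_erase hs)]
  rw [h1, h2]
  ring

omit [Fintype J] in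
theorem mu_inj {s₀ : J} {n : ZMod p} (hn : n ≠ 0) : Function.Injective (mu s₀ n (J := J)) := by
  classical
  intro y z h
  funext s
  have h1 := congrFun h s
  unfold mu at h1
  by_cases hs : s = s₀
  · subst hs
    rw [Function.update_self, Function.update_self] at h1
    exact mul_left_cancel₀ hn h1
  · rwa [Function.update_of_ne hs, Function.update_of_ne hs] at h1

omit [Fintype J] in
theorem mu_ne {s₀ : J} {n : ZMod p} (hn : n ≠ 0) {y : J → ZMod p} (hy : ∀ s, y s ≠ 0) (s : J) :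
    mu s₀ n y s ≠ 0 := by
  classical
  unfold mu
  by_cases hs : s = s₀
  · subst hs
    rw [Function.update_self]
    exact mul_ne_zero hn (hy s)
  · rw [Function.update_of_ne hs]
    exact hy s

end FP_

open FP_ in
theorem p_FP : T_FP := by
  classical
  intro J _ S hS p hpp hp3
  have : Fact p.Prime := ⟨hpp⟩
  obtain ⟨s₀, h₀⟩ := hS
  obtain ⟨n, hn⟩ := FiniteField.exists_nonsquare (F := ZMod p) (by
    rw [ZMod.ringChar_zmod_n]
    omega)
  have hn0 : n ≠ 0 := by
    rintro rfl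
    exact hn IsSquare.zero
  set A : Set (J → ZMod p) := {y | ∀ s, y s ≠ 0} with hA
  set Sq : Set (J → ZMod p) := {y | (∀ s, y s ≠ 0) ∧ IsSquare (∏ s ∈ S, - y s)} with hSq
  set NS : Set (J → ZMod p) := {y | (∀ s, y s ≠ 0) ∧ ¬ IsSquare (∏ s ∈ S, - y s)} with hNS
  set E : Set (J → ZMod p) := {y | IsSquare (∏ s ∈ S, - y s)} with hE
  have h1 : Sq.ncard ≤ NS.ncard := by
    refine Set.ncard_le_ncard_of_injOn (mu s₀ n) ?_ (mu_inj hn0).injOn (Set.toFinite _)
    rintro y ⟨hy1, hy2⟩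
    refine ⟨mu_ne hn0 hy1, ?_⟩
    rw [mu_prod h₀]
    intro h3
    have hP : ∏ s ∈ S, - y s ≠ 0 := Finset.prod_ne_zero_iff.2 fun s _ => neg_ne_zero.2 (hy1 s)
    apply hn
    have h4 := h3.div hy2
    rwa [mul_div_cancel_right₀ _ hP] at h4
  have h2 : A.ncard ≤ Sq.ncard + NS.ncard := by
    have h3 : A ⊆ Sq ∪ NS := by
      intro y hy
      by_cases h : IsSquare (∏ s ∈ S, - y s)
      · exact Or.inl ⟨hy, h⟩
      · exact Or.inr ⟨hy, h⟩
    exact (Set.ncard_le_ncard h3 (Set.toFinite _)).trans (Set.ncard_union_le _ _)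
  have h3 : A.ncard = (p - 1) ^ Fintype.card J := by
    have h4 : A = ↑(Fintype.piFinset (fun _ : J => (Finset.univ : Finset (ZMod p)).erase 0)) := by
      ext y
      simp [hA]
    rw [h4, Set.ncard_coe_finset, Fintype.card_piFinset]
    simp only [Finset.card_erase_of_mem (Finset.mem_univ _), Finset.card_univ, ZMod.card,
      Finset.prod_const]
  have h4 : E.ncard + Eᶜ.ncard = p ^ Fintype.card J := by
    rw [Set.ncard_add_ncard_compl, Nat.card_eq_fintype_card, Fintype.card_fun, ZMod.card]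
  have h5 : NS.ncard ≤ Eᶜ.ncard :=
    Set.ncard_le_ncard (fun y hy => hy.2) (Set.toFinite _)
  have h6 : ((p : ℝ) - 1) ^ Fintype.card J ≤ 2 * (NS.ncard : ℝ) := by
    have h7 : (p - 1) ^ Fintype.card J ≤ 2 * NS.ncard := by
      rw [← h3]
      omega
    have h8 : (((p - 1) ^ Fintype.card J : ℕ) : ℝ) ≤ ((2 * NS.ncard : ℕ) : ℝ) := by
      exact_mod_cast h7
    rw [Nat.cast_pow, Nat.cast_sub (by omega)] at h8
    push_cast at h8
    exact h8
  have hp3' : (3 : ℝ) ≤ p := by exact_mod_cast hp3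
  have h7 : (2 / 3 : ℝ) ^ Fintype.card J * (p : ℝ) ^ Fintype.card J ≤
      ((p : ℝ) - 1) ^ Fintype.card J := by
    rw [← mul_pow]
    apply pow_le_pow_left₀ (by positivity)
    linarith
  have h8 : (1 / 3 : ℝ) ^ Fintype.card J ≤ (2 / 3 : ℝ) ^ Fintype.card J :=
    pow_le_pow_left₀ (by norm_num) (by norm_num) _
  have hpp0 : (0 : ℝ) ≤ (p : ℝ) ^ Fintype.card J := by positivity
  have h9 : (1 / 3 : ℝ) ^ Fintype.card J * (p : ℝ) ^ Fintype.card J ≤
      (2 / 3 : ℝ) ^ Fintype.card J * (p : ℝ) ^ Fintype.card J := by gcongr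
  have h10 : 0 ≤ (1 / 3 : ℝ) ^ Fintype.card J * (p : ℝ) ^ Fintype.card J := by positivity
  have h11 : (E.ncard : ℝ) + (Eᶜ.ncard : ℝ) = (p : ℝ) ^ Fintype.card J := by
    exact_mod_cast h4
  have h12 : (NS.ncard : ℝ) ≤ (Eᶜ.ncard : ℝ) := by exact_mod_cast h5
  rw [pow_succ]
  show (E.ncard : ℝ) ≤ _
  nlinarith

end Pool.Agent.CMX
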