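import Pool.Agent.CMX.Targets

set_option autoImplicit false

namespace Pool.Agent.CMX

open NumberField Finset Module
open Pool.Agent.CMT (QBar IsCMType cc)
open scoped BigOperators

namespace KUM_

open Polynomial in
/-- the sign change of a square root -/
theorem exists_neg (L : Subfield QBar) (β : QBar) (hβ : β ^ 2 ∈ L)
    (h : ∀ b ∈ L, β ^ 2 ≠ b ^ 2) : ∃ τ : QBar ≃ₐ[L] QBar, τ β = - β := by
  have halg : Algebra.IsAlgebraic L QBar := Pool.Agent.CMTP.isAlgebraic_QBar L
  obtain ⟨N, hN⟩ : ∃ N : L, (N : QBar) = β ^ 2 := ⟨⟨β ^ 2, hβ⟩, rfl⟩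
  have hirr : Irreducible (X ^ 2 - C N : L[X]) := by
    refine X_pow_sub_C_irreducible_of_prime Nat.prime_two fun b hb => ?_
    apply h b b.2
    rw [← hN, ← hb]
    rfl
  have hmon : (X ^ 2 - C N : L[X]).Monic := monic_X_pow_sub_C N (by norm_num)
  have hN' : algebraMap L QBar N = β ^ 2 := hN
  have h1 : X ^ 2 - C N = minpoly L β := by
    refine minpoly.eq_of_irreducible_of_monic hirr ?_ hmon
    simp [hN']
  have h2 : X ^ 2 - C N = minpoly L (-β) := by
    refine minpoly.eq_of_irreducible_of_monic hirr ?_ hmon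
    simp [hN']
  have hnorm : Normal L QBar :=
    normal_iff.2 fun x => ⟨(halg.isAlgebraic x).isIntegral, IsAlgClosed.splits _⟩
  have h3 : IsConjRoot L (-β) β := (h2.symm.trans h1 : minpoly L (-β) = minpoly L β)
  exact isConjRoot_iff_exists_algEquiv.1 h3

end KUM_

open KUM_ in
theorem p_KUM : T_KUM := by
  classical
  intro T _ L v hv hS t₀
  have : Fintype T := Fintype.ofFinite T
  have hv0 : ∀ t, v t ≠ 0 := by
    intro t ht
    refine hS {t} (Finset.singleton_nonempty t) 0 L.zero_mem ?_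
    rw [Finset.prod_singleton, ht]
  have hne : ∀ t, v t ≠ - v t := by
    intro t ht
    have h1 : (2 : QBar) * v t = 0 := by linear_combination ht
    rcases mul_eq_zero.1 h1 with h2 | h2
    · norm_num at h2
    · exact hv0 t h2
  have hpm : ∀ (τ : QBar ≃ₐ[L] QBar) (t : T), τ (v t) = v t ∨ τ (v t) = - v t := by
    intro τ t
    have h1 : (τ (v t)) ^ 2 = (v t) ^ 2 := by
      rw [← map_pow]
      exact τ.commutes ⟨v t ^ 2, hv t⟩
    exact sq_eq_sq_iff_eq_or_eq_neg.1 h1
  let s : (QBar ≃ₐ[L] QBar) → T → ZMod 2 := fun τ t => if τ (v t) = v t then 0 else 1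
  have hs0 : ∀ τ t, τ (v t) = v t → s τ t = 0 := fun τ t h => if_pos h
  have hs1 : ∀ τ t, τ (v t) = - v t → s τ t = 1 := by
    intro τ t h
    refine if_neg (fun h' => hne t ?_)
    rw [h] at h'
    exact h'.symm
  have hadd : ∀ τ σ, s (τ * σ) = s τ + s σ := by
    intro τ σ
    funext t
    rw [Pi.add_apply]
    have e : (τ * σ) (v t) = τ (σ (v t)) := rfl
    rcases hpm σ t with h1 | h1 <;> rcases hpm τ t with h2 | h2
    · rw [hs0 _ _ h1, hs0 _ _ h2, hs0 _ _ (by rw [e, h1, h2]), add_zero]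
    · rw [hs0 _ _ h1, hs1 _ _ h2, hs1 _ _ (by rw [e, h1, h2]), add_zero]
    · rw [hs1 _ _ h1, hs0 _ _ h2, hs1 _ _ (by rw [e, h1, map_neg, h2]), zero_add]
    · rw [hs1 _ _ h1, hs1 _ _ h2, hs0 _ _ (by rw [e, h1, map_neg, h2, neg_neg])]
      rfl
  let V : AddSubgroup (T → ZMod 2) :=
    { carrier := Set.range s
      add_mem' := by
        rintro _ _ ⟨τ, rfl⟩ ⟨σ, rfl⟩
        exact ⟨τ * σ, hadd τ σ⟩
      zero_mem' := ⟨1, by funext t; exact hs0 _ _ rfl⟩
      neg_mem' := by
        rintro _ ⟨τ, rfl⟩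
        refine ⟨τ, ?_⟩
        funext t
        rw [Pi.neg_apply]
        exact (ZMod.neg_eq_self_mod_two _).symm }
  let V' := AddSubgroup.toZModSubmodule 2 V
  have hV : V' = ⊤ := by
    by_contra hcon
    obtain ⟨f, hf0, hf⟩ := Submodule.exists_le_ker_of_lt_top V' (lt_top_iff_ne_top.2 hcon)
    let c : T → ZMod 2 := fun t => f (fun j => if t = j then 1 else 0)
    have hfc : ∀ x, f x = ∑ t, x t * c t := fun x => by
      rw [LinearMap.pi_apply_eq_sum_univ f x]
      rfl
    let S : Finset T := univ.filter (fun t => c t ≠ 0)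
    have hSne : S.Nonempty := by
      by_contra h
      rw [Finset.not_nonempty_iff_eq_empty] at h
      apply hf0
      ext x
      rw [LinearMap.zero_comp, LinearMap.comp_apply, LinearMap.zero_apply, hfc]
      refine Finset.sum_eq_zero (fun t _ => ?_)
      have h1 : c t = 0 := by
        by_contra h2
        have h3 : t ∈ S := Finset.mem_filter.2 ⟨Finset.mem_univ _, h2⟩
        rw [h] at h3
        exact absurd h3 (Finset.notMem_empty _)
      rw [h1, mul_zero]
    have hprod : (∏ t ∈ S, v t) ^ 2 = ∏ t ∈ S, v t ^ 2 := by rw [Finset.prod_pow]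
    obtain ⟨τ, hτ⟩ := exists_neg L (∏ t ∈ S, v t)
      (by rw [hprod]; exact Subfield.prod_mem L (fun t _ => hv t))
      (by rw [hprod]; exact hS S hSne)
    have hτV : s τ ∈ V' := (AddSubgroup.mem_toZModSubmodule ..).2 ⟨τ, rfl⟩
    have h0 : f (s τ) = 0 := hf hτV
    rw [hfc] at h0
    have h1 : ∑ t ∈ S, s τ t = 0 := by
      rw [← h0, ← Finset.sum_filter_add_sum_filter_not univ (fun t => c t ≠ 0)
        (fun t => s τ t * c t)]
      have h2 : ∑ t ∈ univ.filter (fun t => ¬ c t ≠ 0), s τ t * c t = 0 := by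
        refine Finset.sum_eq_zero (fun t ht => ?_)
        have h3 := (Finset.mem_filter.1 ht).2
        rw [not_not] at h3
        rw [h3, mul_zero]
      rw [h2, add_zero]
      refine Finset.sum_congr rfl (fun t ht => ?_)
      have h3 : c t ≠ 0 := (Finset.mem_filter.1 ht).2
      have h4 : c t = 1 := by
        generalize c t = z at h3
        revert z
        decide
      rw [h4, mul_one]
    have h2 : ∀ t, τ (v t) = (-1) ^ (s τ t).val * v t := by
      intro t
      rcases hpm τ t with h3 | h3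
      · rw [hs0 _ _ h3, h3]
        simp
      · rw [hs1 _ _ h3, h3]
        have : (1 : ZMod 2).val = 1 := rfl
        rw [this, pow_one, neg_one_mul]
    have h3 : τ (∏ t ∈ S, v t) = ∏ t ∈ S, v t := by
      rw [map_prod, Finset.prod_congr rfl (fun t _ => h2 t), Finset.prod_mul_distrib,
        Finset.prod_pow_eq_pow_sum]
      have h4 : Even (∑ t ∈ S, (s τ t).val) := by
        rw [← ZMod.natCast_eq_zero_iff_even, Nat.cast_sum]
        rw [← h1]
        refine Finset.sum_congr rfl (fun t _ => ?_)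
        rw [ZMod.natCast_val, ZMod.cast_id', id]
      rw [h4.neg_one_pow, one_mul]
    rw [h3] at hτ
    have h5 : (∏ t ∈ S, v t) ≠ 0 := Finset.prod_ne_zero_iff.2 (fun t _ => hv0 t)
    have h6 : (2 : QBar) * ∏ t ∈ S, v t = 0 := by linear_combination hτ
    rcases mul_eq_zero.1 h6 with h7 | h7
    · norm_num at h7
    · exact h5 h7
  have hmem : (Pi.single t₀ 1 : T → ZMod 2) ∈ V' := by rw [hV]; trivial
  obtain ⟨τ, hτ⟩ := (AddSubgroup.mem_toZModSubmodule ..).1 hmem
  refine ⟨(τ : QBar ≃+* QBar), fun x hx => τ.commutes ⟨x, hx⟩, ?_, ?_⟩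
  · rcases hpm τ t₀ with h1 | h1
    · exfalso
      have h2 := congrFun hτ t₀
      rw [hs0 _ _ h1, Pi.single_eq_same] at h2
      exact absurd h2 (by decide)
    · exact h1
  · intro t ht
    rcases hpm τ t with h1 | h1
    · exact h1
    · exfalso
      have h2 := congrFun hτ t
      rw [hs1 _ _ h1, Pi.single_eq_of_ne ht] at h2
      exact absurd h2 (by decide)

end Pool.Agent.CMX
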