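import Mathlib
import Pool.Agent.CMX.Targets

set_option autoImplicit false
set_option linter.unusedSectionVars false
set_option linter.unusedVariables false

namespace Pool.Agent.CMX

open NumberField Finset Module
open Pool.Agent.CMT (QBar IsCMType cc)
open scoped BigOperators

/-- almost all tuples are independent modulo squares -/
theorem indep_almost (hC : T_COUNT) (Λ : Type) [Fintype Λ] (F : Λ → Type) [∀ l, Field (F l)]
    [∀ l, NumberField (F l)] (ι : Λ → Type) [∀ l, Fintype (ι l)]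
    (b : ∀ l, Basis (ι l) ℤ (𝓞 (F l))) (ε : ℝ) (hε : 0 < ε) :
    ∃ H₀ : ℕ, ∀ H : ℕ, H₀ ≤ H →
      (({x : (Σ l, ι l) → ℤ | (∀ i, |x i| ≤ H) ∧
        ¬ Indep (fun l => ((∑ i, x ⟨l, i⟩ • b l i : 𝓞 (F l)) : F l))}.ncard : ℕ) : ℝ) ≤
        ε * (2 * H + 1 : ℝ) ^ Fintype.card (Σ l, ι l) := by
  classical
  have : Fintype (Σ l, F l →+* QBar) := Fintype.ofFinite _
  set N : ℕ := Fintype.card (Finset (Σ l, F l →+* QBar)) with hN
  have hNpos : 0 < N := Fintype.card_pos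
  have hε' : 0 < ε / N := div_pos hε (by exact_mod_cast hNpos)
  have h1 : ∀ S : Finset (Σ l, F l →+* QBar), ∃ H₀ : ℕ, S.Nonempty → ∀ H : ℕ, H₀ ≤ H →
      (({x : (Σ l, ι l) → ℤ | (∀ i, |x i| ≤ H) ∧ ∃ β ∈ conjField F,
      ∏ s ∈ S, (- s.2 ((∑ i, x ⟨s.1, i⟩ • b s.1 i : 𝓞 (F s.1)) : F s.1)) = β ^ 2}.ncard : ℕ) : ℝ) ≤
        ε / N * (2 * H + 1 : ℝ) ^ Fintype.card (Σ l, ι l) := by
    intro S
    by_cases hS : S.Nonempty
    · obtain ⟨H₀, h⟩ := hC Λ F ι b S hS (ε / N) hε'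
      exact ⟨H₀, fun _ => h⟩
    · exact ⟨0, fun h => absurd h hS⟩
  choose H₁ hH₁ using h1
  refine ⟨∑ S, H₁ S, fun H hH => ?_⟩
  let Bd : Finset (Σ l, F l →+* QBar) → Set ((Σ l, ι l) → ℤ) := fun S =>
    if S.Nonempty then {x : (Σ l, ι l) → ℤ | (∀ i, |x i| ≤ H) ∧ ∃ β ∈ conjField F,
      ∏ s ∈ S, (- s.2 ((∑ i, x ⟨s.1, i⟩ • b s.1 i : 𝓞 (F s.1)) : F s.1)) = β ^ 2} else ∅
  have hsub : {x : (Σ l, ι l) → ℤ | (∀ i, |x i| ≤ H) ∧
        ¬ Indep (fun l => ((∑ i, x ⟨l, i⟩ • b l i : 𝓞 (F l)) : F l))} ⊆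
      ⋃ S ∈ (Finset.univ : Finset (Finset (Σ l, F l →+* QBar))), Bd S := by
    rintro x ⟨hx1, hx2⟩
    unfold Indep at hx2
    push Not at hx2
    obtain ⟨S, hS, β, hβ, h⟩ := hx2
    rw [Set.mem_iUnion₂]
    refine ⟨S, Finset.mem_univ _, ?_⟩
    show x ∈ Bd S
    simp only [Bd, if_pos hS]
    exact ⟨hx1, β, hβ, h⟩
  have hfin : ∀ S, (Bd S).Finite := by
    intro S
    have hbox : {x : (Σ l, ι l) → ℤ | ∀ i, |x i| ≤ H}.Finite := by
      refine (Set.finite_Icc (fun _ => -(H : ℤ)) (fun _ => (H : ℤ))).subset fun x hx => ?_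
      rw [Set.mem_Icc]
      exact ⟨fun i => (abs_le.1 (hx i)).1, fun i => (abs_le.1 (hx i)).2⟩
    by_cases hS : S.Nonempty
    · simp only [Bd, if_pos hS]
      exact hbox.subset fun x hx => hx.1
    · simp only [Bd, if_neg hS]
      exact Set.finite_empty
  have hcard : ∀ S, (((Bd S).ncard : ℕ) : ℝ) ≤ ε / N * (2 * H + 1 : ℝ) ^ Fintype.card (Σ l, ι l) := by
    intro S
    by_cases hS : S.Nonempty
    · simp only [Bd, if_pos hS]
      exact hH₁ S hS H ((Finset.single_le_sum (fun _ _ => Nat.zero_le _) (Finset.mem_univ S)).trans hH)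
    · simp only [Bd, if_neg hS, Set.ncard_empty]
      simp only [Nat.cast_zero]
      positivity
  calc _ ≤ (((⋃ S ∈ (Finset.univ : Finset (Finset (Σ l, F l →+* QBar))), Bd S).ncard : ℕ) : ℝ) := by
        exact_mod_cast Set.ncard_le_ncard hsub (Set.Finite.biUnion (Finset.finite_toSet _) fun S _ => hfin S)
    _ ≤ ∑ S, (((Bd S).ncard : ℕ) : ℝ) := by
        exact_mod_cast Finset.set_ncard_biUnion_le _ _
    _ ≤ ∑ S : Finset (Σ l, F l →+* QBar), ε / N * (2 * H + 1 : ℝ) ^ Fintype.card (Σ l, ι l) :=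
        Finset.sum_le_sum fun S _ => hcard S
    _ = ε * (2 * H + 1 : ℝ) ^ Fintype.card (Σ l, ι l) := by
        rw [Finset.sum_const, Finset.card_univ, ← hN, nsmul_eq_mul]
        have : (N : ℝ) ≠ 0 := by exact_mod_cast hNpos.ne'
        field_simp

/-- the tuple `a` is good: all products of powers of abelian varieties with complex multiplication
by the fields `F l (√ (- a l))` and linearly independent CM types -/
def Good {Λ : Type} {F : Λ → Type} [∀ l, Field (F l)] (a : ∀ l, F l) : Prop :=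
  ∀ (K : Λ → Type) [∀ l, Field (K l)] [∀ l, NumberField (K l)] [∀ l, IsCMField (K l)]
    [∀ l, Algebra (F l) (K l)] (α : ∀ l, K l),
    (∀ l, α l ^ 2 = - algebraMap (F l) (K l) (a l)) →
    (∀ l, IntermediateField.adjoin (F l) {α l} = ⊤) →
    ∀ (m : Λ → ℕ) (Φ : ∀ l, Fin (m l) → Finset (K l →+* QBar)),
      (∀ l s, IsCMType (K l) (Φ l s)) → (∀ l, LinearIndependent ℚ (fun s => sgn (Φ l s))) →
      TateByDivisors Φ

theorem main (hC : T_COUNT) (hF : T_FLIP) (hS : T_SGN) (Λ : Type) [Fintype Λ] (F : Λ → Type)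
    [∀ l, Field (F l)] [∀ l, NumberField (F l)] [∀ l, IsTotallyReal (F l)] (ι : Λ → Type)
    [∀ l, Fintype (ι l)] (b : ∀ l, Basis (ι l) ℤ (𝓞 (F l))) (ε : ℝ) (hε : 0 < ε) :
    ∃ H₀ : ℕ, ∀ H : ℕ, H₀ ≤ H →
      (({x : (Σ l, ι l) → ℤ | (∀ i, |x i| ≤ H) ∧
        ¬ Good (fun l => ((∑ i, x ⟨l, i⟩ • b l i : 𝓞 (F l)) : F l))}.ncard : ℕ) : ℝ) ≤
        ε * (2 * H + 1 : ℝ) ^ Fintype.card (Σ l, ι l) := by
  classical
  obtain ⟨H₀, h⟩ := indep_almost hC Λ F ι b ε hε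
  refine ⟨H₀, fun H hH => le_trans ?_ (h H hH)⟩
  have hbox : {x : (Σ l, ι l) → ℤ | ∀ i, |x i| ≤ H}.Finite := by
    refine (Set.finite_Icc (fun _ => -(H : ℤ)) (fun _ => (H : ℤ))).subset fun x hx => ?_
    rw [Set.mem_Icc]
    exact ⟨fun i => (abs_le.1 (hx i)).1, fun i => (abs_le.1 (hx i)).2⟩
  have : {x : (Σ l, ι l) → ℤ | (∀ i, |x i| ≤ H) ∧
        ¬ Good (fun l => ((∑ i, x ⟨l, i⟩ • b l i : 𝓞 (F l)) : F l))} ⊆
      {x : (Σ l, ι l) → ℤ | (∀ i, |x i| ≤ H) ∧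
        ¬ Indep (fun l => ((∑ i, x ⟨l, i⟩ • b l i : 𝓞 (F l)) : F l))} := by
    rintro x ⟨hx1, hx2⟩
    refine ⟨hx1, fun hi => hx2 ?_⟩
    intro K _ _ _ _ α hα hK m Φ hΦ hli
    exact hS Λ K (hF Λ F K _ α hα hK hi) m Φ hΦ hli
  exact_mod_cast Set.ncard_le_ncard this (hbox.subset fun x hx => hx.1)

end Pool.Agent.CMX
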