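import Mathlib

set_option autoImplicit false

/-!
# The totally positive tuples are a positive proportion of the box
-/

namespace Pool.Agent.CMX

open NumberField Finset Module
open scoped BigOperators

/-- `a` is totally positive -/
def TotPos {F : Type} [Field F] (a : F) : Prop := ∀ σ : F →+* ℝ, 0 < σ a

theorem p_POS (Λ : Type) [Fintype Λ] (F : Λ → Type) [∀ l, Field (F l)]
    [∀ l, NumberField (F l)] (ι : Λ → Type) [∀ l, Fintype (ι l)]
    (b : ∀ l, Basis (ι l) ℤ (𝓞 (F l))) :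
    ∃ c : ℝ, 0 < c ∧ ∃ H₀ : ℕ, ∀ H : ℕ, H₀ ≤ H →
      c * (2 * H + 1 : ℝ) ^ Fintype.card (Σ l, ι l) ≤
      (({x : (Σ l, ι l) → ℤ | (∀ i, |x i| ≤ H) ∧
        ∀ l, TotPos ((∑ i, x ⟨l, i⟩ • b l i : 𝓞 (F l)) : F l)}.ncard : ℕ) : ℝ) := by
  classical
  have hfin : ∀ l, Finite (F l →+* ℝ) := fun l =>
    Finite.of_injective (fun σ : F l →+* ℝ => (Complex.ofRealHom.comp σ : F l →+* ℂ)) (by
      intro σ τ h
      ext x
      have := congrArg (fun f : F l →+* ℂ => f x) h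
      exact Complex.ofReal_injective this)
  -- the bound `B`
  obtain ⟨B, hB⟩ : ∃ B : ℕ, ∀ l, ∀ σ : F l →+* ℝ, ∑ i, |σ (b l i : F l)| ≤ B := by
    have : Finite (Σ l, F l →+* ℝ) := inferInstance
    obtain ⟨M, hM⟩ := (Set.finite_range
      (fun s : Σ l, F l →+* ℝ => ∑ i, |s.2 (b s.1 i : F s.1)|)).bddAbove
    refine ⟨⌈M⌉₊, fun l σ => ?_⟩
    exact (hM ⟨⟨l, σ⟩, rfl⟩).trans (Nat.le_ceil M)
  -- the coordinates of one
  let x0 : (Σ l, ι l) → ℤ := fun s => (b s.1).repr 1 s.2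
  obtain ⟨M, hM⟩ : ∃ M : ℕ, ∀ i, |x0 i| ≤ M := by
    refine ⟨∑ i, (x0 i).natAbs, fun i => ?_⟩
    rw [Int.abs_eq_natAbs]
    exact_mod_cast Finset.single_le_sum (f := fun i => (x0 i).natAbs) (fun _ _ => Nat.zero_le _)
      (Finset.mem_univ i)
  have hone : ∀ l, (∑ i, x0 ⟨l, i⟩ • b l i : 𝓞 (F l)) = 1 := fun l => (b l).sum_repr 1
  set N := Fintype.card (Σ l, ι l) with hN
  refine ⟨(1 / (6 * (B * M + 1 : ℝ))) ^ N, by positivity, 2 * M + 1, fun H hH => ?_⟩
  set m : ℕ := (H - M) / (B * M + 1) with hm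
  set t : ℤ := B * m + 1 with ht
  have hm1 : m * (B * M + 1) ≤ H - M := Nat.div_mul_le_self _ _
  have hm2 : H - M < (m + 1) * (B * M + 1) := by
    have := Nat.lt_div_mul_add (a := H - M) (b := B * M + 1) (by omega)
    rw [← hm] at this
    nlinarith
  -- the box of the `y`
  let Y : Finset ((Σ l, ι l) → ℤ) := Fintype.piFinset fun _ => Finset.Icc (-(m : ℤ)) m
  have hY : Y.card = (2 * m + 1) ^ N := by
    simp only [Y, Fintype.card_piFinset, Int.card_Icc, Finset.prod_const, Finset.card_univ]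
    congr 1
    omega
  have hsub : ((Y.image fun y s => t * x0 s + y s : Finset ((Σ l, ι l) → ℤ)) :
      Set ((Σ l, ι l) → ℤ)) ⊆ {x : (Σ l, ι l) → ℤ | (∀ i, |x i| ≤ H) ∧
        ∀ l, TotPos ((∑ i, x ⟨l, i⟩ • b l i : 𝓞 (F l)) : F l)} := by
    intro x hx
    rw [Finset.coe_image] at hx
    obtain ⟨y, hy, rfl⟩ := hx
    have hy' : ∀ s, |y s| ≤ m := by
      intro s
      have := Fintype.mem_piFinset.1 (Finset.mem_coe.1 hy) s
      rw [Finset.mem_Icc] at this
      exact abs_le.2 this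
    refine ⟨fun s => ?_, fun l σ => ?_⟩
    · have h1 : |t * x0 s + y s| ≤ t * M + m := by
        have ht0 : 0 ≤ t := by positivity
        calc |t * x0 s + y s| ≤ |t * x0 s| + |y s| := abs_add_le _ _
          _ = t * |x0 s| + |y s| := by rw [abs_mul, abs_of_nonneg ht0]
          _ ≤ t * M + m := by gcongr; exacts [hM s, hy' s]
      have h2 : t * M + m ≤ H := by
        have h3 : m * (B * M + 1) + M ≤ H := by omega
        have h4 : ((m * (B * M + 1) + M : ℕ) : ℤ) ≤ (H : ℤ) := by exact_mod_cast h3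
        push_cast at h4
        rw [ht]
        linarith
      exact h1.trans h2
    · have h1 : (∑ i, (t * x0 ⟨l, i⟩ + y ⟨l, i⟩) • b l i : 𝓞 (F l)) =
          t • (1 : 𝓞 (F l)) + ∑ i, y ⟨l, i⟩ • b l i := by
        rw [← hone l, Finset.smul_sum, ← Finset.sum_add_distrib]
        refine Finset.sum_congr rfl fun i _ => ?_
        rw [add_smul, mul_smul]
      rw [h1]
      have h2 : σ ((t • (1 : 𝓞 (F l)) + ∑ i, y ⟨l, i⟩ • b l i : 𝓞 (F l)) : F l) =
          t + ∑ i, (y ⟨l, i⟩ : ℝ) * σ (b l i : F l) := by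
        push_cast
        simp [map_sum]
      rw [h2]
      have h3 : |∑ i, (y ⟨l, i⟩ : ℝ) * σ (b l i : F l)| ≤ m * B := by
        calc _ ≤ ∑ i, |(y ⟨l, i⟩ : ℝ) * σ (b l i : F l)| := Finset.abs_sum_le_sum_abs _ _
          _ ≤ ∑ i, m * |σ (b l i : F l)| := by
              refine Finset.sum_le_sum fun i _ => ?_
              rw [abs_mul]
              refine mul_le_mul_of_nonneg_right ?_ (abs_nonneg _)
              exact_mod_cast hy' ⟨l, i⟩
          _ = m * ∑ i, |σ (b l i : F l)| := by rw [Finset.mul_sum]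
          _ ≤ m * B := by gcongr; exact hB l σ
      have h4 := (abs_le.1 h3).1
      have h5 : (t : ℝ) = B * m + 1 := by rw [ht]; push_cast; ring
      rw [h5]
      nlinarith
  have hinj : Function.Injective (fun (y : (Σ l, ι l) → ℤ) s => t * x0 s + y s) := by
    intro y z h
    funext s
    have := congrFun h s
    simpa using this
  have hcard : (Y.image fun y s => t * x0 s + y s : Finset ((Σ l, ι l) → ℤ)).card =
      (2 * m + 1) ^ N := by
    rw [Finset.card_image_of_injective _ hinj, hY]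
  have hbox : {x : (Σ l, ι l) → ℤ | (∀ i, |x i| ≤ H) ∧
        ∀ l, TotPos ((∑ i, x ⟨l, i⟩ • b l i : 𝓞 (F l)) : F l)}.Finite := by
    refine (Set.finite_Icc (fun _ => -(H : ℤ)) (fun _ => (H : ℤ))).subset fun x hx => ?_
    rw [Set.mem_Icc]
    exact ⟨fun i => (abs_le.1 (hx.1 i)).1, fun i => (abs_le.1 (hx.1 i)).2⟩
  have h6 := Set.ncard_le_ncard hsub hbox
  rw [Set.ncard_coe_finset, hcard] at h6
  have h7 : (1 / (6 * (B * M + 1 : ℝ))) * (2 * H + 1) ≤ 2 * m + 1 := by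
    have h8 : (H : ℝ) - M < (m + 1) * (B * M + 1) := by
      have h9 : H < (m + 1) * (B * M + 1) + M := by omega
      have h10 : (H : ℝ) < (((m + 1) * (B * M + 1) + M : ℕ) : ℝ) := by exact_mod_cast h9
      push_cast at h10
      linarith
    have h11 : (2 * M + 1 : ℝ) ≤ H := by exact_mod_cast hH
    have hpos : (0 : ℝ) < B * M + 1 := by positivity
    rw [div_mul_eq_mul_div, one_mul, div_le_iff₀ (by positivity)]
    have hM0 : (0 : ℝ) ≤ M := Nat.cast_nonneg _
    have hm0 : (0 : ℝ) ≤ m := Nat.cast_nonneg _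
    nlinarith [mul_nonneg hm0 hpos.le]
  calc (1 / (6 * (B * M + 1 : ℝ))) ^ N * (2 * H + 1 : ℝ) ^ N
      = ((1 / (6 * (B * M + 1 : ℝ))) * (2 * H + 1)) ^ N := by rw [mul_pow]
    _ ≤ (2 * m + 1 : ℝ) ^ N := by
        refine pow_le_pow_left₀ (by positivity) h7 N
    _ = (((2 * m + 1) ^ N : ℕ) : ℝ) := by push_cast; ring
    _ ≤ _ := by exact_mod_cast h6

end Pool.Agent.CMX
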