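import Mathlib
import Pool.Agent.CMX.Targets

set_option autoImplicit false
set_option linter.unusedSectionVars false

/-!
# SGN: single sign changes and linearly independent types
-/

namespace Pool.Agent.CMX

open NumberField Finset Module
open Pool.Agent.CMT (QBar IsCMType cc cc_cc comp_cc idx mem_idx divisorial_of_count)
open scoped BigOperators

namespace SGN_

variable {Λ : Type} {K : Λ → Type} [∀ l, Field (K l)] [∀ l, NumberField (K l)]
  [∀ l, IsCMField (K l)] {m : Λ → ℕ} {n : ∀ l, Fin (m l) → ℕ}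

open Classical in
/-- the part of a set of eigenlines that belongs to one factor -/
noncomputable def slice (Δ : Finset (Idx K n)) (l : Λ) (s : Fin (m l)) :
    Finset ((K l →+* QBar) × Fin (n l s)) :=
  univ.filter (fun q => (⟨l, s, q⟩ : Idx K n) ∈ Δ)

theorem mem_slice (Δ : Finset (Idx K n)) (l : Λ) (s : Fin (m l))
    (q : (K l →+* QBar) × Fin (n l s)) :
    q ∈ slice Δ l s ↔ (⟨l, s, q⟩ : Idx K n) ∈ Δ := by
  classical
  simp [slice]

theorem count [Fintype Λ] (Δ : Finset (Idx K n)) (P : ∀ l, Fin (m l) → (K l →+* QBar) → Prop)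
    [∀ l s φ, Decidable (P l s φ)] :
    {p : Idx K n | p ∈ Δ ∧ P p.1 p.2.1 p.2.2.1}.ncard =
      ∑ l, ∑ s, ∑ φ : K l →+* QBar, if P l s φ then (idx (slice Δ l s) φ).card else 0 := by
  classical
  have h1 : {p : Idx K n | p ∈ Δ ∧ P p.1 p.2.1 p.2.2.1}.ncard =
      (univ.filter (fun p : Idx K n => p ∈ Δ ∧ P p.1 p.2.1 p.2.2.1)).card := by
    rw [← Set.ncard_coe_finset]
    congr 1
    ext p
    simp
  rw [h1, Finset.card_filter, Fintype.sum_sigma]
  refine Finset.sum_congr rfl fun l _ => ?_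
  rw [Fintype.sum_sigma]
  refine Finset.sum_congr rfl fun s _ => ?_
  rw [Fintype.sum_prod_type]
  refine Finset.sum_congr rfl fun φ _ => ?_
  by_cases h : P l s φ
  · simp only [h, and_true, if_true]
    rw [← Finset.card_filter]
    congr 1
    ext j
    rw [mem_idx, mem_slice]
    simp
  · simp [h]

theorem sgn_eq {L : Type} [Field L] (Φ : Finset (L →+* QBar)) (φ : L →+* QBar)
    [Decidable (φ ∈ Φ)] : sgn Φ φ = 2 * (if φ ∈ Φ then 1 else 0) - 1 := by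
  unfold sgn
  by_cases h : φ ∈ Φ
  · simp only [h, if_true]; norm_num
  · simp only [h, if_false]; norm_num

theorem sgn_cc {L : Type} [Field L] [NumberField L] [IsCMField L] {Φ : Finset (L →+* QBar)}
    (hΦ : IsCMType L Φ) (φ : L →+* QBar) : sgn Φ (cc φ) = - sgn Φ φ := by
  classical
  have h : φ ∈ Φ ↔ cc φ ∉ Φ := hΦ φ
  unfold sgn
  by_cases h1 : φ ∈ Φ
  · have h2 := h.1 h1
    simp only [h1, h2, if_true, if_false]
  · have h2 : cc φ ∈ Φ := by
      by_contra h3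
      exact h1 (h.2 h3)
    simp only [h1, h2, if_true, if_false]
    norm_num

theorem sgn_ne_zero {L : Type} [Field L] (Φ : Finset (L →+* QBar)) (φ : L →+* QBar) :
    sgn Φ φ ≠ 0 := by
  unfold sgn
  split_ifs <;> norm_num

/-- the relations -/
theorem relation [Fintype Λ] (Φ : ∀ l, Fin (m l) → Finset (K l →+* QBar)) (i : ℕ)
    (Δ : Finset (Idx K n)) (hΔ : TateWeight Φ i Δ) (τ : QBar ≃+* QBar) :
    ∑ l, ∑ s, ∑ φ : K l →+* QBar, sgn (Φ l s) ((τ : QBar →+* QBar).comp φ) *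
      ((idx (slice Δ l s) φ).card : ℚ) = 0 := by
  classical
  obtain ⟨h1, h2'⟩ := hΔ
  have h2 : ∀ τ : QBar ≃+* QBar, {p : Idx K n | p ∈ Δ ∧
    (τ : QBar →+* QBar).comp p.2.2.1 ∈ Φ p.1 p.2.1}.ncard = i := h2'
  have h3 := count Δ (fun l s φ => (τ : QBar →+* QBar).comp φ ∈ Φ l s)
  have h4 := count Δ (fun l s φ => True)
  rw [h2 τ] at h3
  have h5 : {p : Idx K n | p ∈ Δ ∧ True}.ncard = 2 * i := by
    rw [← h1, ← Set.ncard_coe_finset]
    congr 1
    ext p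
    simp
  rw [h5] at h4
  have h3' : (i : ℚ) = ∑ l, ∑ s, ∑ φ : K l →+* QBar,
      if (τ : QBar →+* QBar).comp φ ∈ Φ l s then ((idx (slice Δ l s) φ).card : ℚ) else 0 := by
    exact_mod_cast h3
  have h4' : (2 * i : ℚ) = ∑ l, ∑ s, ∑ φ : K l →+* QBar, ((idx (slice Δ l s) φ).card : ℚ) := by
    simp only [if_true] at h4
    exact_mod_cast h4
  have h6 : ∑ l, ∑ s, ∑ φ : K l →+* QBar, sgn (Φ l s) ((τ : QBar →+* QBar).comp φ) *
      ((idx (slice Δ l s) φ).card : ℚ) = 2 * (∑ l, ∑ s, ∑ φ : K l →+* QBar,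
      if (τ : QBar →+* QBar).comp φ ∈ Φ l s then ((idx (slice Δ l s) φ).card : ℚ) else 0) -
      ∑ l, ∑ s, ∑ φ : K l →+* QBar, ((idx (slice Δ l s) φ).card : ℚ) := by
    rw [Finset.mul_sum, ← Finset.sum_sub_distrib]
    refine Finset.sum_congr rfl fun l _ => ?_
    rw [Finset.mul_sum, ← Finset.sum_sub_distrib]
    refine Finset.sum_congr rfl fun s _ => ?_
    rw [Finset.mul_sum, ← Finset.sum_sub_distrib]
    refine Finset.sum_congr rfl fun φ _ => ?_
    rw [sgn_eq]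
    split_ifs <;> ring
  rw [h6, ← h3', ← h4']
  ring

/-- gluing the divisorial decompositions of the factors -/
theorem glue [Fintype Λ] (Φ : ∀ l, Fin (m l) → Finset (K l →+* QBar)) (Δ : Finset (Idx K n))
    (h : ∀ l s, CMT.Divisorial (Φ l s) (slice Δ l s)) : Divisorial Φ Δ := by
  classical
  choose D hD1 hD2 hD3 using h
  let g : ∀ (l : Λ) (s : Fin (m l)), (K l →+* QBar) × Fin (n l s) → Idx K n :=
    fun l s q => ⟨l, s, q⟩
  have hg : ∀ l s, Function.Injective (g l s) := by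
    intro l s q q' hq
    have h1 : (⟨l, s, q⟩ : Idx K n) = ⟨l, s, q'⟩ := hq
    simpa using h1
  let E : Finset (Finset (Idx K n)) := (univ : Finset (Σ l, Fin (m l))).biUnion
    (fun ls => (D ls.1 ls.2).image (fun B => B.image (g ls.1 ls.2)))
  have hE : ∀ C, C ∈ E ↔ ∃ (l : Λ) (s : Fin (m l)), ∃ B ∈ D l s, B.image (g l s) = C := by
    intro C
    simp only [E, mem_biUnion, mem_univ, true_and, mem_image]
    constructor
    · rintro ⟨⟨l, s⟩, B, hB, rfl⟩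
      exact ⟨l, s, B, hB, rfl⟩
    · rintro ⟨l, s, B, hB, rfl⟩
      exact ⟨⟨l, s⟩, B, hB, rfl⟩
  refine ⟨E, ?_, ?_, ?_⟩
  · intro C1 h1 C2 h2 hne
    rw [Finset.mem_coe, hE] at h1 h2
    obtain ⟨l, s, B, hB, rfl⟩ := h1
    obtain ⟨l', s', B', hB', rfl⟩ := h2
    rw [Function.onFun, id, id, Finset.disjoint_left]
    intro z hz1 hz2
    rw [mem_image] at hz1 hz2
    obtain ⟨q, hq, rfl⟩ := hz1
    obtain ⟨q', hq', hqq⟩ := hz2
    have e0 : (⟨l', s', q'⟩ : Idx K n) = ⟨l, s, q⟩ := hqq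
    cases e0
    have hBB : B ≠ B' := fun e => hne (by rw [e])
    have := hD1 l s (Finset.mem_coe.2 hB) (Finset.mem_coe.2 hB') hBB
    rw [Function.onFun, id, id, Finset.disjoint_left] at this
    exact this hq hq'
  · rintro ⟨l, s, q⟩
    rw [← mem_slice, hD2 l s q]
    constructor
    · rintro ⟨B, hB, hq⟩
      exact ⟨B.image (g l s), (hE _).2 ⟨l, s, B, hB, rfl⟩, mem_image.2 ⟨q, hq, rfl⟩⟩
    · rintro ⟨C, hC, hq⟩
      obtain ⟨l', s', B, hB, rfl⟩ := (hE _).1 hC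
      obtain ⟨q', hq', hqq⟩ := mem_image.1 hq
      have e0 : (⟨l', s', q'⟩ : Idx K n) = ⟨l, s, q⟩ := hqq
      cases e0
      exact ⟨B, hB, hq'⟩
  · intro C hC
    obtain ⟨l, s, B, hB, rfl⟩ := (hE _).1 hC
    obtain ⟨h1, h2⟩ := hD3 l s B hB
    refine ⟨?_, fun τ => ?_⟩
    · rw [card_image_of_injective _ (hg l s), h1]
    · show {p : Idx K n | p ∈ B.image (g l s) ∧
        (τ : QBar →+* QBar).comp p.2.2.1 ∈ Φ p.1 p.2.1}.ncard = 1
      rw [← h2 τ, ← Set.ncard_image_of_injective _ (hg l s)]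
      congr 1
      ext p
      simp only [Set.mem_ofPred_eq, Set.mem_image, mem_image]
      constructor
      · rintro ⟨⟨q, hq, rfl⟩, h3⟩
        exact ⟨q, ⟨hq, h3⟩, rfl⟩
      · rintro ⟨q, ⟨hq, h3⟩, rfl⟩
        exact ⟨⟨q, hq, rfl⟩, h3⟩

end SGN_

open SGN_ in
/-- SGN -/
theorem p_SGN : T_SGN := by
  classical
  intro Λ _ K _ _ _ hflip m Φ hΦ hli n i Δ hΔ
  refine glue Φ Δ fun l₀ s₀ => divisorial_of_count (hΦ l₀ s₀) fun φ₀ => ?_
  obtain ⟨τ₀, hτ1, hτ2, hτ3⟩ := hflip l₀ φ₀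
  have hτ4 : (τ₀ : QBar →+* QBar).comp (cc φ₀) = φ₀ := by
    rw [comp_cc, hτ1, cc_cc]
  have hne : φ₀ ≠ cc φ₀ := (CMTP.cc_ne φ₀).symm
  have key : ∀ ψ : K l₀ →+* QBar, ∑ s, (((idx (slice Δ l₀ s) φ₀).card : ℚ) -
      ((idx (slice Δ l₀ s) (cc φ₀)).card : ℚ)) * sgn (Φ l₀ s) ψ = 0 := by
    intro ψ
    obtain ⟨_, ⟨τ, rfl⟩, hτ⟩ := CMTP.transitive (K l₀) φ₀ ψ
    have hτ' : (τ : QBar →+* QBar).comp φ₀ = ψ := hτ
    have h1 := relation Φ i Δ hΔ τ
    have h2 := relation Φ i Δ hΔ (τ * τ₀)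
    have hcomp : ∀ (l : Λ) (φ : K l →+* QBar),
        ((τ * τ₀ : QBar ≃+* QBar) : QBar →+* QBar).comp φ =
          (τ : QBar →+* QBar).comp ((τ₀ : QBar →+* QBar).comp φ) := fun l φ => rfl
    have h3 : ∑ l, ∑ s, ∑ φ : K l →+* QBar,
        (sgn (Φ l s) ((τ : QBar →+* QBar).comp φ) -
          sgn (Φ l s) (((τ * τ₀ : QBar ≃+* QBar) : QBar →+* QBar).comp φ)) *
        ((idx (slice Δ l s) φ).card : ℚ) = 0 := by
      have h4 := congrArg₂ (fun x y : ℚ => x - y) h1 h2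
      simp only [sub_zero] at h4
      rw [← h4, ← Finset.sum_sub_distrib]
      refine Finset.sum_congr rfl fun l _ => ?_
      rw [← Finset.sum_sub_distrib]
      refine Finset.sum_congr rfl fun s _ => ?_
      rw [← Finset.sum_sub_distrib]
      refine Finset.sum_congr rfl fun φ _ => ?_
      ring
    rw [Fintype.sum_eq_single l₀ (fun l hl => by
      refine Finset.sum_eq_zero fun s _ => Finset.sum_eq_zero fun φ _ => ?_
      rw [hcomp, hτ3 l hl φ, sub_self, zero_mul])] at h3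
    have h5 : ∀ s, ∑ φ : K l₀ →+* QBar,
        (sgn (Φ l₀ s) ((τ : QBar →+* QBar).comp φ) -
          sgn (Φ l₀ s) (((τ * τ₀ : QBar ≃+* QBar) : QBar →+* QBar).comp φ)) *
        ((idx (slice Δ l₀ s) φ).card : ℚ) = 2 * ((((idx (slice Δ l₀ s) φ₀).card : ℚ) -
      ((idx (slice Δ l₀ s) (cc φ₀)).card : ℚ)) * sgn (Φ l₀ s) ψ) := by
      intro s
      rw [Fintype.sum_eq_add φ₀ (cc φ₀) hne (fun φ hφ => by
        rw [hcomp, hτ2 φ hφ.1 hφ.2, sub_self, zero_mul])]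
      rw [hcomp, hcomp, hτ1, hτ4, comp_cc, hτ', sgn_cc (hΦ l₀ s)]
      ring
    simp only [h5, ← Finset.mul_sum] at h3
    linarith
  have h6 := Fintype.linearIndependent_iff.1 (hli l₀) (fun s =>
    ((idx (slice Δ l₀ s) φ₀).card : ℚ) - ((idx (slice Δ l₀ s) (cc φ₀)).card : ℚ)) (by
      funext ψ
      rw [Finset.sum_apply]
      simp only [Pi.smul_apply, smul_eq_mul, Pi.zero_apply]
      exact key ψ) s₀
  have h7 : ((idx (slice Δ l₀ s₀) φ₀).card : ℚ) = ((idx (slice Δ l₀ s₀) (cc φ₀)).card : ℚ) := by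
    linarith
  exact_mod_cast h7

end Pool.Agent.CMX
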