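import Pool.Agent.CMX.Targets
import Pool.Agent.QTw.DZ
import Pool.Agent.QTw.MUL
import Pool.Agent.QTw.PP
import Pool.Agent.QTw.SPL

set_option autoImplicit false

/-!
# Infinitely many primes have a prime of degree one in a number field
-/

namespace Pool.Agent.CMX

open NumberField

namespace SPL_

open Pool.Agent.QTw (idealCount T_DZ)

theorem dz : T_DZ := Pool.Agent.QTw.p_DZ Pool.Agent.QTw.p_MUL Pool.Agent.QTw.p_PP

/-- there are infinitely many primes which are norms of ideals -/
theorem exists_prime (L : Type) [Field L] [NumberField L] (N : ℕ) :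
    ∃ p : ℕ, p.Prime ∧ N < p ∧ idealCount L p ≠ 0 := by
  by_contra hcon
  push Not at hcon
  obtain ⟨B, hB⟩ := dz L
  set P : Finset Nat.Primes := (Finset.range (N + 1)).image
    (fun i => if h : i.Prime then (⟨i, h⟩ : Nat.Primes) else ⟨2, Nat.prime_two⟩) with hP
  set C : ℝ := ∑ p ∈ P, (idealCount L p : ℝ) with hC
  have hsum : ∀ s : ℝ, 1 < s →
      ∑' p : Nat.Primes, (idealCount L p : ℝ) * ((p : ℕ) : ℝ) ^ (-s) ≤ C := by
    intro s hs
    rw [tsum_eq_sum (s := P) (by
      intro p hp
      have h1 : idealCount L p = 0 := by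
        refine hcon p p.2 ?_
        by_contra h2
        push Not at h2
        apply hp
        rw [hP, Finset.mem_image]
        refine ⟨(p : ℕ), Finset.mem_range.2 (by omega), ?_⟩
        exact dif_pos p.2
      rw [h1, Nat.cast_zero, zero_mul])]
    refine Finset.sum_le_sum fun p _ => ?_
    have h2 : ((p : ℕ) : ℝ) ^ (-s) ≤ 1 :=
      Real.rpow_le_one_of_one_le_of_nonpos (by exact_mod_cast p.2.one_lt.le) (by linarith)
    calc (idealCount L p : ℝ) * ((p : ℕ) : ℝ) ^ (-s) ≤ (idealCount L p : ℝ) * 1 :=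
          mul_le_mul_of_nonneg_left h2 (Nat.cast_nonneg _)
      _ = (idealCount L p : ℝ) := mul_one _
  have hlog : ∀ s : ℝ, 1 < s → s ≤ 2 → Real.log (1 / (s - 1)) ≤ B + C := by
    intro s hs hs2
    have h1 := (abs_le.1 (hB s hs hs2)).1
    have h2 := hsum s hs
    linarith
  set E : ℝ := Real.exp (-(|B + C| + 1)) with hE
  have hE0 : 0 < E := Real.exp_pos _
  have hE1 : E ≤ 1 := by
    rw [hE, Real.exp_le_one_iff]
    have := abs_nonneg (B + C)
    linarith
  have h3 := hlog (1 + E) (by linarith) (by linarith)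
  have h4 : Real.log (1 / (1 + E - 1)) = |B + C| + 1 := by
    have : 1 + E - 1 = E := by ring
    rw [this, one_div, Real.log_inv, hE, Real.log_exp, neg_neg]
  rw [h4] at h3
  have := le_abs_self (B + C)
  linarith

end SPL_

open SPL_ in
theorem p_SPL : T_SPL := by
  intro L _ _ N
  obtain ⟨p, hp, hN, hI⟩ := exists_prime L N
  refine ⟨p, hp, hN, ?_⟩
  have hne : Nonempty {I : Ideal (NumberField.RingOfIntegers L) // Ideal.absNorm I = p} := by
    by_contra h
    rw [not_nonempty_iff] at h
    exact hI (by unfold Pool.Agent.QTw.idealCount; exact Nat.card_of_isEmpty)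
  obtain ⟨I, hI⟩ := hne
  exact Pool.Agent.QTw.SPL_.exists_hom L p hp I hI

end Pool.Agent.CMX
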